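import Mathlib

/-!
# `k`-abelian palindromes: definitions
-/

set_option autoImplicit false

namespace Pool.Agent.H.MP_d67245_co

/-- `occ t u` is `|u|_t`, the number of occurrences of `t` as a contiguous factor of `u`, that is,
the number of suffixes of `u` which begin with `t`. -/
def occ {α : Type} [DecidableEq α] (t u : List α) : ℕ :=
  u.tails.countP (fun s => decide (t <+: s))

/-- `u` and `v` are `k`-abelian equivalent: every word of length at most `k` occurs equally often
in `u` and in `v`. -/
def KEquiv {α : Type} [DecidableEq α] (k : ℕ) (u v : List α) : Prop :=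
  ∀ t : List α, t.length ≤ k → occ t u = occ t v

/-- `v` is a `k`-palindrome: it is `k`-abelian equivalent to its reversal. -/
def KPal {α : Type} [DecidableEq α] (k : ℕ) (v : List α) : Prop := KEquiv k v v.reverse

/-- `k`-abelian equivalence as an equivalence relation on words. -/
def kSetoid (α : Type) [DecidableEq α] (k : ℕ) : Setoid (List α) where
  r := KEquiv k
  iseqv :=
    { refl := fun _ _ _ => rfl
      symm := fun h t ht => (h t ht).symm
      trans := fun h1 h2 t ht => (h1 t ht).trans (h2 t ht) }

/-- `v` is a (contiguous) factor of the infinite word `w`, i.e. `v = w_i w_{i+1} ⋯ w_{i+n-1}` for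
some `i` and `n`; the empty word is a factor. -/
def IsFactor {α : Type} (w : ℕ → α) (v : List α) : Prop :=
  ∃ i n : ℕ, v = (List.range n).map (fun j => w (i + j))

/-- The factor set of `w` is closed under reversal. -/
def ClosedUnderReversal {α : Type} (w : ℕ → α) : Prop :=
  ∀ v : List α, IsFactor w v → IsFactor w v.reverse

/-- The set of `k`-abelian classes containing a factor of `w` which is a `k`-palindrome. -/
def PalClasses {α : Type} [DecidableEq α] (k : ℕ) (w : ℕ → α) : Set (Quotient (kSetoid α k)) :=
  {c | ∃ v : List α, IsFactor w v ∧ KPal k v ∧ c = Quotient.mk (kSetoid α k) v}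

/-- `Pal k w` is the number of `k`-abelian classes containing a factor of `w` which is a
`k`-palindrome (`⊤` if there are infinitely many). -/
noncomputable def Pal {α : Type} [DecidableEq α] (k : ℕ) (w : ℕ → α) : ℕ∞ :=
  (PalClasses k w).encard

/-- The exceptional set `S = {(1, ℓ) : ℓ ≥ 2} ∪ {(2,2), (2,3), (3,2), (4,2)}`. -/
def S : Set (ℕ × ℕ) := {p | p.1 = 1 ∧ 2 ≤ p.2} ∪ {(2, 2), (2, 3), (3, 2), (4, 2)}

end Pool.Agent.H.MP_d67245_co
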