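import Pool.Agent.H.MP_d67245_co.Search

set_option autoImplicit false
set_option maxRecDepth 100000

namespace Pool.Agent.H.MP_d67245_co

/-- No binary word closed under reversal has at most `12` palindromes (counted with `K = 5`). -/
theorem run2 : search 2 5 [0, 1] 20 0 1 [(0, 0)] 11 = true := by decide +kernel

/-- No ternary word closed under reversal has at most `6` palindromes (counted with `K = 3`). -/
theorem run3 : search 3 3 [0, 1, 2] 20 0 1 [(0, 0)] 5 = true := by decide +kernel

/-- No ternary word closed under reversal has at most `4` palindromes (counted with `K = 2`). -/
theorem run4 : search 3 2 [0, 1, 2] 20 0 1 [(0, 0)] 3 = true := by decide +kernel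

end Pool.Agent.H.MP_d67245_co
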