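import Pool.Agent.H.MP_d67245_co.Occ
import Pool.Agent.H.MP_d67245_co.Run

/-!
# Lower bounds
-/

set_option autoImplicit false

namespace Pool.Agent.H.MP_d67245_co

/-- factor of length `n` at position `i` -/
def fac {α : Type} (w : ℕ → α) (i n : ℕ) : List α := (List.range n).map (fun j => w (i + j))

theorem fac_length {α : Type} (w : ℕ → α) (i n : ℕ) : (fac w i n).length = n := by simp [fac]

theorem fac_succ {α : Type} (w : ℕ → α) (i n : ℕ) :
    fac w i (n + 1) = fac w i n ++ [w (i + n)] := by
  simp [fac, List.range_succ]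

theorem fac_map {α β : Type} (w : ℕ → α) (σ : α → β) (i n : ℕ) :
    fac (fun j => σ (w j)) i n = (fac w i n).map σ := by
  simp [fac]

theorem fac_ext {α : Type} (w : ℕ → α) (i j n : ℕ) :
    fac w i n = fac w j n ↔ ∀ x, x < n → w (i + x) = w (j + x) := by
  simp [fac, List.map_inj_left]

theorem code_eq (q : ℕ) (w : ℕ → ℕ) (n i : ℕ) :
    code q w n i = Nat.ofDigits q (fac w i n).reverse := by
  induction n with
  | zero => simp [code, fac]
  | succ n ih =>
    rw [fac_succ, List.reverse_append]
    show q * code q w n i + w (i + n) = Nat.ofDigits q (w (i + n) :: (fac w i n).reverse)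
    rw [Nat.ofDigits_cons, ih]
    ring

theorem rcode_eq (q : ℕ) (w : ℕ → ℕ) (n i : ℕ) :
    rcode q w n i = Nat.ofDigits q (fac w i n) := by
  induction n with
  | zero => simp [rcode, fac]
  | succ n ih =>
    rw [fac_succ, Nat.ofDigits_append, Nat.ofDigits_singleton, fac_length]
    show w (i + n) * q ^ n + rcode q w n i = _
    rw [ih]
    ring

theorem closed_iff {α : Type} (w : ℕ → α) (h : ClosedUnderReversal w) (n i : ℕ) :
    ∃ j, fac w j n = (fac w i n).reverse := by
  obtain ⟨j, m, hj⟩ := h (fac w i n) ⟨i, n, rfl⟩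
  have hm : m = n := by
    have := congrArg List.length hj
    simpa [fac_length] using this.symm
  subst hm
  exact ⟨j, hj.symm⟩

theorem rev_apply {α : Type} (w : ℕ → α) (n i j : ℕ) (h : fac w j n = (fac w i n).reverse)
    (x : ℕ) (hx : x < n) : w (i + x) = w (j + (n - 1 - x)) := by
  have h1 : (fac w i n)[x]'(by rw [fac_length]; exact hx) = w (i + x) := by simp [fac]
  have h2 : (fac w j n)[n - 1 - x]'(by rw [fac_length]; omega) = w (j + (n - 1 - x)) := by
    simp [fac]
  rw [← h1, ← h2]
  simp only [h, List.getElem_reverse, fac_length]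
  congr 1
  omega

theorem good_of_closed {α : Type} (w : ℕ → α) (h : ClosedUnderReversal w) (q : ℕ) (σ : α → ℕ)
    (hσ : ∀ i, σ (w i) < q) : Good q (fun i => σ (w i)) where
  lt := hσ
  rev := by
    intro n i
    obtain ⟨j, hj⟩ := closed_iff w h n i
    refine ⟨j, ?_, ?_⟩
    · rw [code_eq, rcode_eq, fac_map w σ, fac_map w σ, hj]
      simp
    · rw [code_eq, rcode_eq, fac_map w σ, fac_map w σ, hj]
      simp
  recur := by
    intro n i j
    obtain ⟨p, hp⟩ := closed_iff w h (i + j + n) 0
    obtain ⟨p', hp'⟩ := closed_iff w h (i + p + (i + j + n)) 0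
    refine ⟨p' + i + j, by omega, ?_⟩
    rw [code_eq, code_eq, fac_map w σ, fac_map w σ]
    have : fac w (p' + i + j) n = fac w j n := by
      rw [fac_ext]
      intro x hx
      have h1 := rev_apply w (i + j + n) 0 p hp (j + x) (by omega)
      have h2 := rev_apply w (i + p + (i + j + n)) 0 p' hp' (p + (i + j + n - 1 - (j + x)))
        (by omega)
      rw [Nat.zero_add] at h1 h2
      rw [h1, h2]
      congr 1
      omega
    rw [this]

section classes

variable {α : Type} [DecidableEq α]

theorem encard_range_le (w : ℕ → α) (k : ℕ) (hk : 1 ≤ k) :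
    (Set.range w).encard + 1 ≤ Pal k w := by
  classical
  -- the classes of the empty word and of the letters
  let f : Option α → Quotient (kSetoid α k) := fun o =>
    match o with
    | none => Quotient.mk (kSetoid α k) []
    | some a => Quotient.mk (kSetoid α k) [a]
  let s : Set (Option α) := insert none (some '' Set.range w)
  have hs : s.encard = (Set.range w).encard + 1 := by
    rw [Set.encard_insert_of_notMem (by simp),
      Function.Injective.encard_image (Option.some_injective _)]
  rw [← hs]
  apply Set.encard_le_encard_of_injOn (f := f)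
  · intro o ho
    rcases o with _ | a
    · exact ⟨[], ⟨0, 0, rfl⟩, kPal_of_reverse_eq rfl, rfl⟩
    · rcases ho with h | ⟨b, ⟨i, rfl⟩, hb⟩
      · exact absurd h (by simp)
      · have : w i = a := Option.some.inj hb
        subst this
        exact ⟨[w i], ⟨i, 1, by simp⟩, kPal_of_reverse_eq rfl, rfl⟩
  · intro o _ o' _ h
    rcases o with _ | a <;> rcases o' with _ | b
    · rfl
    · have h' : KEquiv k ([] : List α) [b] := Quotient.exact h
      have := h'.length_eq
      simp at this
    · have h' : KEquiv k [a] ([] : List α) := Quotient.exact h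
      have := h'.length_eq
      simp at this
    · have h' : KEquiv k [a] [b] := Quotient.exact h
      have := h'.eq_of_length_le (by simpa using hk)
      simp at this
      rw [this]

theorem cost_sum_le (w : ℕ → α) (q K B k : ℕ) (hq : 2 ≤ q) (hKk : K ≤ k)
    (σ : α → ℕ) (hσ : Set.InjOn σ (Set.range w)) (hσq : ∀ i, σ (w i) < q)
    (hB : Pal k w ≤ B) (N : ℕ) :
    ∑ m ∈ Finset.Ico 0 N, cost q K (fun i => σ (w i)) m ≤ B := by
  classical
  set w' : ℕ → ℕ := fun i => σ (w i) with hw'
  -- chosen palindromes of each length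
  let D : ℕ → Finset ℕ := fun m => if m ≤ K then pc q w' m else
    if h : (pc q w' m).Nonempty then {(pc q w' m).min' h} else ∅
  have hDcard : ∀ m, (D m).card = cost q K w' m := by
    intro m
    simp only [D, cost]
    split_ifs with h1 h2
    · rfl
    · simp
    · simp
  have hDpc : ∀ m c, c ∈ D m → c ∈ pc q w' m := by
    intro m c hc
    simp only [D] at hc
    split_ifs at hc with h1 h2
    · exact hc
    · rw [Finset.mem_singleton] at hc
      rw [hc]
      exact Finset.min'_mem _ _
    · simp at hc
  have hlt : ∀ i, w' i < q := hσq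
  have hex : ∀ m c, c ∈ pc q w' m → ∃ i, code q w' m i = c ∧ rcode q w' m i = c := by
    intro m c hc
    exact (mem_pc hlt m c).mp hc
  -- position of the palindrome
  let pos : ℕ → ℕ → ℕ := fun m c => if h : c ∈ pc q w' m then (hex m c h).choose else 0
  have hpos : ∀ m c, c ∈ pc q w' m → code q w' m (pos m c) = c ∧ rcode q w' m (pos m c) = c := by
    intro m c hc
    simp only [pos, dif_pos hc]
    exact (hex m c hc).choose_spec
  let T : Finset ((_ : ℕ) × ℕ) := (Finset.Ico 0 N).sigma D
  have hT : T.card = ∑ m ∈ Finset.Ico 0 N, cost q K w' m := by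
    simp only [T, Finset.card_sigma, hDcard]
  let f : ((_ : ℕ) × ℕ) → Quotient (kSetoid α k) := fun x =>
    Quotient.mk (kSetoid α k) (fac w (pos x.1 x.2) x.1)
  have hle : (T : Set ((_ : ℕ) × ℕ)).encard ≤ (PalClasses k w).encard := by
    apply Set.encard_le_encard_of_injOn (f := f)
    · rintro ⟨m, c⟩ hx
      have hx' : c ∈ D m := by
        have := Finset.mem_coe.mp hx
        simp only [T, Finset.mem_sigma] at this
        exact this.2
      have hc := hpos m c (hDpc m c hx')
      refine ⟨fac w (pos m c) m, ⟨pos m c, m, rfl⟩, kPal_of_reverse_eq ?_, rfl⟩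
      -- palindrome
      have h1 : Nat.ofDigits q (fac w' (pos m c) m).reverse = Nat.ofDigits q (fac w' (pos m c) m) :=
        by rw [← code_eq, ← rcode_eq, hc.1, hc.2]
      have hdig : ∀ l ∈ fac w' (pos m c) m, l < q := by
        intro l hl
        simp only [fac, List.mem_map] at hl
        obtain ⟨j, _, rfl⟩ := hl
        exact hlt _
      have h2 : (fac w' (pos m c) m).reverse = fac w' (pos m c) m :=
        Nat.ofDigits_inj_of_len_eq (by omega) (by simp) (by simpa using hdig) hdig h1
      rw [hw', fac_map w σ, ← List.map_reverse] at h2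
      have h3 : ∀ x ∈ fac w (pos m c) m, x ∈ Set.range w := by
        intro x hx
        simp only [fac, List.mem_map] at hx
        obtain ⟨j, _, rfl⟩ := hx
        exact ⟨_, rfl⟩
      have hlen : (fac w (pos m c) m).reverse.length = (fac w (pos m c) m).length := by simp
      apply List.ext_getElem hlen
      intro n h4 h5
      have h6 : σ ((fac w (pos m c) m).reverse[n]) = σ ((fac w (pos m c) m)[n]) := by
        have := congrArg (fun l => l[n]?) h2
        simp only [List.getElem?_map] at this
        rw [List.getElem?_eq_getElem h4, List.getElem?_eq_getElem h5] at this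
        simpa using this
      apply hσ _ _ h6
      · apply h3
        rw [← List.mem_reverse]
        exact List.getElem_mem _
      · apply h3
        exact List.getElem_mem _
    · rintro ⟨m, c⟩ hx ⟨m', c'⟩ hx' h
      have hcD : c ∈ D m := by
        have := Finset.mem_coe.mp hx
        simp only [T, Finset.mem_sigma] at this
        exact this.2
      have hcD' : c' ∈ D m' := by
        have := Finset.mem_coe.mp hx'
        simp only [T, Finset.mem_sigma] at this
        exact this.2
      have hE : KEquiv k (fac w (pos m c) m) (fac w (pos m' c') m') := Quotient.exact h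
      have hm : m = m' := by
        have := hE.length_eq
        rwa [fac_length, fac_length] at this
      subst hm
      have hcc : c = c' := by
        by_cases hmK : m ≤ K
        · have h1 := hE.eq_of_length_le (by rw [fac_length]; omega)
          have h2 := (hpos m c (hDpc m c hcD)).1
          have h3 := (hpos m c' (hDpc m c' hcD')).1
          rw [← h2, ← h3, code_eq, code_eq, hw', fac_map w σ, fac_map w σ, h1]
        · simp only [D, if_neg hmK] at hcD hcD'
          split_ifs at hcD with h1
          · rw [dif_pos h1] at hcD'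
            rw [Finset.mem_singleton] at hcD hcD'
            rw [hcD, hcD']
          · simp at hcD
      rw [hcc]
  have h1 : ((T.card : ℕ) : ℕ∞) ≤ B := by
    rw [← Set.encard_coe_eq_coe_finsetCard]
    exact hle.trans hB
  rw [← hT]
  exact_mod_cast h1

theorem lower_bound (w : ℕ → α) (hc : ClosedUnderReversal w) (q K k b : ℕ) (hq : 2 ≤ q)
    (hKk : K ≤ k) (L : List ℕ) (hL : ∀ c, c < q → c ∈ L) (fuel : ℕ)
    (hs : search q K L fuel 0 1 [(0, 0)] b = true)
    (σ : α → ℕ) (hσ : Set.InjOn σ (Set.range w)) (hσq : ∀ i, σ (w i) < q) :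
    ((b + 2 : ℕ) : ℕ∞) ≤ Pal k w := by
  by_contra hcon
  rw [not_le] at hcon
  have hB : Pal k w ≤ ((b + 1 : ℕ) : ℕ∞) := by
    have : ((b + 2 : ℕ) : ℕ∞) = ((b + 1 : ℕ) : ℕ∞) + 1 := by push_cast; ring
    rw [this] at hcon
    exact Order.le_of_lt_add_one hcon
  exact search_bound (good_of_closed w hc q σ hσq) K L hL fuel b hs
    (fun N => cost_sum_le w q K (b + 1) k hq hKk σ hσ hσq hB N)

end classes

/-- binary words -/
theorem lower2 (k : ℕ) (hk : 5 ≤ k) (w : ℕ → Fin 2) (hc : ClosedUnderReversal w) :
    (13 : ℕ∞) ≤ Pal k w := by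
  have := lower_bound w hc 2 5 k 11 (by omega) hk [0, 1]
    (by intro c hc; interval_cases c <;> simp) 20 run2 (fun a => a.val)
    (fun a _ b _ h => Fin.ext h) (fun i => (w i).isLt)
  exact_mod_cast this

/-- ternary words -/
theorem lower3 (k : ℕ) (hk : 3 ≤ k) (w : ℕ → Fin 3) (hc : ClosedUnderReversal w) :
    (7 : ℕ∞) ≤ Pal k w := by
  have := lower_bound w hc 3 3 k 5 (by omega) hk [0, 1, 2]
    (by intro c hc; interval_cases c <;> simp) 20 run3 (fun a => a.val)
    (fun a _ b _ h => Fin.ext h) (fun i => (w i).isLt)
  exact_mod_cast this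

/-- arbitrary words -/
theorem lower4 {α : Type} [DecidableEq α] (k : ℕ) (hk : 2 ≤ k) (w : ℕ → α)
    (hc : ClosedUnderReversal w) : (5 : ℕ∞) ≤ Pal k w := by
  classical
  by_cases h4 : (4 : ℕ∞) ≤ (Set.range w).encard
  · have h1 := encard_range_le w k (by omega)
    calc (5 : ℕ∞) = 4 + 1 := by norm_num
      _ ≤ (Set.range w).encard + 1 := by gcongr
      _ ≤ Pal k w := h1
  · rw [not_le] at h4
    have hfin : (Set.range w).Finite := by
      rw [← Set.encard_lt_top_iff]
      exact h4.trans (by exact ENat.natCast_lt_top 4)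
    have hcard : hfin.toFinset.card ≤ 3 := by
      have h5 : (Set.range w).encard = (hfin.toFinset.card : ℕ∞) := by
        rw [hfin.encard_eq_coe_toFinset_card]
      rw [h5] at h4
      have : hfin.toFinset.card < 4 := by exact_mod_cast h4
      omega
    let e := hfin.toFinset.equivFin
    let σ : α → ℕ := fun a => if h : a ∈ hfin.toFinset then (e ⟨a, h⟩).val else 0
    have hmem : ∀ a, a ∈ Set.range w → a ∈ hfin.toFinset := fun a ha => by simpa using ha
    have hσ : Set.InjOn σ (Set.range w) := by
      intro a ha b hb h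
      simp only [σ, dif_pos (hmem a ha), dif_pos (hmem b hb)] at h
      have := e.injective (Fin.ext h)
      exact congrArg Subtype.val this
    have hσq : ∀ i, σ (w i) < 3 := by
      intro i
      simp only [σ, dif_pos (hmem (w i) ⟨i, rfl⟩)]
      exact lt_of_lt_of_le (e ⟨w i, hmem (w i) ⟨i, rfl⟩⟩).isLt hcard
    have := lower_bound w hc 3 2 k 3 (by omega) hk [0, 1, 2]
      (by intro c hc; interval_cases c <;> simp) 20 run4 σ hσ hσq
    exact_mod_cast this

end Pool.Agent.H.MP_d67245_co
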