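import Pool.Agent.H.MP_d67245_co.Win
import Pool.Agent.H.MP_d67245_co.Lower

/-!
# The infinite words
-/

set_option autoImplicit false

namespace Pool.Agent.H.MP_d67245_co

/-- the walks -/
def EE (lab : ℕ → ℕ) : ℕ → List Nd
  | 0 => [(0, 0, 0), (0, 0, 2), (1, 0, 1), (1, 0, 0)]
  | n + 1 => stepE (n % 2 == 0) (lab n) (2 ^ n) n (EE lab n)

theorem EE_inv (lab : ℕ → ℕ) (hlab : ∀ n, 3 ≤ lab n) (n : ℕ) :
    Inv (n % 2 == 0) (2 ^ n) n (EE lab n) := by
  induction n with
  | zero =>
    refine ⟨by simp, ?_, ?_, ?_, ?_, ?_, ?_, ?_, ?_, ?_, ?_⟩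
    · simp [EE]
    · intro v hv; simp [EE] at hv; rcases hv with rfl | rfl | rfl | rfl <;> simp
    · intro v hv; simp [EE] at hv; rcases hv with rfl | rfl | rfl | rfl <;> simp
    · intro v hv; simp [EE] at hv; rcases hv with rfl | rfl | rfl | rfl <;> simp
    · intro v hv; simp [EE] at hv; rcases hv with rfl | rfl | rfl | rfl <;> simp
    · intro v hv; simp [EE] at hv; rcases hv with rfl | rfl | rfl | rfl <;> simp
    · intro v hv; simp [EE] at hv; rcases hv with rfl | rfl | rfl | rfl <;> simp
    · simp [EE, St, Hf]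
    · simp [EE]
    · simp [EE]
  | succ n ih =>
    have h := ih.step (hlab n)
    have h1 : (!(n % 2 == 0)) = ((n + 1) % 2 == 0) := by
      rcases Nat.mod_two_eq_zero_or_one n with h0 | h0
      · have : (n + 1) % 2 = 1 := by omega
        rw [h0, this]; rfl
      · have : (n + 1) % 2 = 0 := by omega
        rw [h0, this]; rfl
    rw [h1, ← pow_succ'] at h
    exact h

/-- the labels along the walks -/
def lb (lab : ℕ → ℕ) (n : ℕ) : List ℕ := (EE lab n).map (fun v => v.2.2)

theorem lb_succ (lab : ℕ → ℕ) (n : ℕ) :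
    ∃ Z, Z ≠ [] ∧ lb lab (n + 1) = lb lab n ++ Z ++ (lb lab n).reverse := by
  refine ⟨((sA (n % 2 == 0) (lab n) (2 ^ n : ℕ) (n + 1) ++
    sB (n % 2 == 0) (2 ^ n : ℕ) (n + 1) (2 * 2 ^ n - 1)) ++
    (sC (n % 2 == 0) (lab n) ((2 ^ n : ℕ) + 2 * (2 ^ n : ℕ)) n).reverse).map (fun v => v.2.2),
    ?_, ?_⟩
  · intro h
    have := congrArg List.length h
    cases hs : (n % 2 == 0) <;> simp [sA, it, blkU, blkD, hs] at this
  · simp only [lb, EE, stepE, List.map_append, List.map_reverse, List.reverse_append,
      List.map_map, List.append_assoc]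
    rfl

theorem lb_mem (lab : ℕ → ℕ) (n : ℕ) : ∀ c ∈ lb lab n, c < 3 ∨ ∃ m, m < n ∧ c = lab m := by
  induction n with
  | zero => intro c hc; simp [lb, EE] at hc; omega
  | succ n ih =>
    intro c hc
    simp only [lb, EE, stepE, List.map_append, List.map_reverse, List.mem_append,
      List.mem_reverse, List.map_map] at hc
    have hA : ∀ s x h, ∀ c ∈ (sA s (lab n) x h).map (fun v : Nd => v.2.2),
        c < 3 ∨ ∃ m, m < n + 1 ∧ c = lab m := by
      intro s x h c hc
      obtain ⟨v, hv, rfl⟩ := List.mem_map.mp hc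
      cases s
      · simp only [sA, Bool.false_eq_true, if_false, mem_it, blkD, List.mem_cons,
          List.not_mem_nil, or_false] at hv
        obtain ⟨j, hj, rfl | rfl | rfl⟩ := hv
        · left; simp
        · right; exact ⟨n, by omega, rfl⟩
        · left; simp
      · simp only [sA, if_true, mem_it, blkU, List.mem_cons,
          List.not_mem_nil, or_false] at hv
        obtain ⟨j, hj, rfl | rfl | rfl⟩ := hv
        · right; exact ⟨n, by omega, rfl⟩
        · left; simp
        · left; simp
    have hB : ∀ s x h a, ∀ c ∈ (sB s x h a).map (fun v : Nd => v.2.2), c < 3 := by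
      intro s x h a c hc
      obtain ⟨v, hv, rfl⟩ := List.mem_map.mp hc
      cases s
      · simp only [sB, Bool.false_eq_true, if_false, mem_it, blkR, List.mem_cons,
          List.not_mem_nil, or_false] at hv
        obtain ⟨j, hj, rfl | rfl | rfl⟩ := hv <;> simp
      · simp only [sB, if_true, List.mem_append, mem_it, blkR, List.mem_cons,
          List.not_mem_nil, or_false] at hv
        rcases hv with ⟨j, hj, rfl | rfl | rfl⟩ | rfl <;> simp
    rcases hc with ((hc | hc) | hc) | (hc | hc)
    · rcases ih c hc with h | ⟨m, hm, h⟩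
      · exact Or.inl h
      · exact Or.inr ⟨m, by omega, h⟩
    · exact hA _ _ _ c hc
    · exact Or.inl (hB _ _ _ _ c hc)
    · have : c ∈ lb lab n := by
        simp only [lb]
        rw [List.mem_map] at hc ⊢
        obtain ⟨v, hv, rfl⟩ := hc
        exact ⟨v, hv, rfl⟩
      rcases ih c this with h | ⟨m, hm, h⟩
      · exact Or.inl h
      · exact Or.inr ⟨m, by omega, h⟩
    · simp only [sC, List.map_append, List.mem_append] at hc
      rcases hc with hc | hc
      · exact hA _ _ _ c hc
      · cases hs : (n % 2 == 0)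
        · simp only [hs, Bool.false_eq_true, if_false, List.map_cons, List.map_nil,
            List.mem_cons, List.not_mem_nil, or_false] at hc
          rcases hc with rfl | rfl
          · left; omega
          · right; exact ⟨n, by omega, rfl⟩
        · simp only [hs, if_true, List.map_cons, List.map_nil,
            List.mem_cons, List.not_mem_nil, or_false] at hc
          rcases hc with rfl | rfl
          · right; exact ⟨n, by omega, rfl⟩
          · left; omega

theorem lab_mem_lb (lab : ℕ → ℕ) (n : ℕ) : lab n ∈ lb lab (n + 1) := by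
  simp only [lb, EE, stepE, List.map_append, List.mem_append]
  refine Or.inl (Or.inl (Or.inr ?_))
  rw [List.mem_map]
  cases hs : (n % 2 == 0)
  · refine ⟨(((2 ^ n : ℕ) : ℤ), -((0 : ℕ) : ℤ) - 1, lab n), ?_, rfl⟩
    simp only [sA, Bool.false_eq_true, if_false, mem_it]
    exact ⟨0, by omega, by simp [blkD]⟩
  · refine ⟨(((2 ^ n : ℕ) : ℤ), ((0 : ℕ) : ℤ), lab n), ?_, rfl⟩
    simp only [sA, if_true, mem_it]
    exact ⟨0, by omega, by simp [blkU]⟩

/-! ### The limit word -/

section limit

variable {β : Type} [DecidableEq β]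

omit [DecidableEq β] in
theorem exists_limit (L : ℕ → List β) (h0 : L 0 ≠ []) (hL : ∀ n, ∃ z, z ≠ [] ∧ L (n + 1) = L n ++ z) :
    ∃ w : ℕ → β, (∀ n, n < (L n).length) ∧
      ∀ n, L n = (List.range (L n).length).map w := by
  have hlen : ∀ n, n < (L n).length := by
    intro n
    induction n with
    | zero => exact List.length_pos_iff.mpr h0
    | succ n ih =>
      obtain ⟨z, hz, e⟩ := hL n
      rw [e, List.length_append]
      have := List.length_pos_iff.mpr hz
      omega
  have hpre : ∀ m n, m ≤ n → L m <+: L n := by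
    intro m n hmn
    induction n, hmn using Nat.le_induction with
    | base => exact List.prefix_refl _
    | succ n _ ih =>
      obtain ⟨z, _, e⟩ := hL n
      exact ih.trans ⟨z, e.symm⟩
  refine ⟨fun i => (L i)[i]'(hlen i), hlen, ?_⟩
  intro n
  apply List.ext_getElem (by simp)
  intro i h1 h2
  simp only [List.getElem_map, List.getElem_range]
  rcases Nat.le_total n i with h | h
  · exact (hpre n i h).getElem h1
  · exact ((hpre i n h).getElem (hlen i)).symm

theorem exists_word (L : ℕ → List β) (h0 : L 0 ≠ [])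
    (hL : ∀ n, ∃ z, z ≠ [] ∧ L (n + 1) = L n ++ z)
    (hrev : ∀ n, ∃ m, (L n).reverse <:+: L m) (k : ℕ) (P : Finset (List β))
    (hpal : ∀ n v, v <:+: L n → KPal k v → v ∈ P) :
    ∃ w : ℕ → β, ClosedUnderReversal w ∧ Pal k w ≤ P.card ∧ ∀ n, ∀ x ∈ L n, x ∈ Set.range w := by
  obtain ⟨w, hlen, hw⟩ := exists_limit L h0 hL
  have hfac : ∀ v, IsFactor w v → ∃ n, v <:+: L n := by
    rintro v ⟨i, m, rfl⟩
    refine ⟨i + m, ?_⟩
    have : (List.range m).map (fun j => w (i + j)) = ((L (i + m)).drop i).take m := by
      have hl := hlen (i + m)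
      rw [hw (i + m)]
      apply List.ext_getElem
      · simp; omega
      · intro j h1 h2
        simp
    rw [this]
    exact (List.take_prefix _ _).isInfix.trans (List.drop_suffix _ _).isInfix
  have hfac' : ∀ v n, v <:+: L n → IsFactor w v := by
    rintro v n ⟨s, t, e⟩
    refine ⟨s.length, v.length, ?_⟩
    apply List.ext_getElem (by simp)
    intro j h1 h2
    simp only [List.getElem_map, List.getElem_range]
    have h3 : s.length + j < (L n).length := by
      rw [← e]; simp; omega
    have h4 : (L n)[s.length + j] = w (s.length + j) := by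
      have := hw n
      have h5 : (L n)[s.length + j] =
          ((List.range (L n).length).map w)[s.length + j]'(by simpa using h3) := by
        congr 1
      rw [h5]; simp
    rw [← h4]
    have h6 : (L n)[s.length + j] = (s ++ v ++ t)[s.length + j]'(by rw [e]; exact h3) := by
      simp only [e]
    rw [h6, List.getElem_append_left (by simp; omega), List.getElem_append_right (by omega)]
    simp
  refine ⟨w, ?_, ?_, ?_⟩
  · intro v hv
    obtain ⟨n, hn⟩ := hfac v hv
    obtain ⟨m, hm⟩ := hrev n
    exact hfac' _ m ((List.reverse_infix.mpr hn).trans hm)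
  · have hsub : PalClasses k w ⊆ (fun v => Quotient.mk (kSetoid β k) v) '' (P : Set (List β)) := by
      rintro c ⟨v, hv, hp, rfl⟩
      obtain ⟨n, hn⟩ := hfac v hv
      exact ⟨v, hpal n v hn hp, rfl⟩
    calc Pal k w ≤ ((fun v => Quotient.mk (kSetoid β k) v) '' (P : Set (List β))).encard :=
          Set.encard_le_encard hsub
      _ ≤ (P : Set (List β)).encard := Set.encard_image_le _ _
      _ = P.card := by rw [Set.encard_coe_eq_coe_finsetCard]
  · intro n x hx
    rw [hw n, List.mem_map] at hx
    obtain ⟨j, _, rfl⟩ := hx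
    exact ⟨j, rfl⟩

end limit

end Pool.Agent.H.MP_d67245_co
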