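import Pool.Agent.H.MP_d67245_co.Enc

/-!
# The ternary and the binary word
-/

set_option autoImplicit false
set_option maxRecDepth 100000

namespace Pool.Agent.H.MP_d67245_co

/-- look up in a table -/
def tab (T : List ((ℕ × ℕ) × (ℤ × ℤ))) (a b : ℕ) : Option (ℤ × ℤ) :=
  (T.find? (fun x => x.1.1 == a && x.1.2 == b)).map (fun x => x.2)

/-! ### The ternary word -/

/-- displacements for the ternary word; `0` is `P`, `1` is `Q`, `2` the letter of a horizontal
edge, `3, 4` the two letters of a vertical edge -/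
def δ3 : ℕ → ℕ → Option (ℤ × ℤ) := tab
  [((0, 1), (0, 0)), ((1, 0), (0, 0)), ((0, 2), (0, 0)), ((2, 0), (0, 0)), ((2, 1), (1, 0)),
   ((1, 2), (-1, 0)), ((0, 3), (0, 0)), ((3, 4), (0, 0)), ((4, 0), (0, 0)), ((4, 1), (0, 1)),
   ((1, 3), (0, -1))]

/-- classes -/
def cls3 (s : ℕ) : ℕ := if s = 4 then 3 else s

/-- letters -/
def g3 (s : ℕ) : Fin 3 := if s = 0 then 1 else if s = 1 then 2 else 0

/-- correction of positions -/
def ψ3 (l : List ℕ) : ℤ × ℤ :=
  if l = [3, 4] ∨ l = [4, 1] then (0, 1) else if l = [2, 1] then (1, 0) else (0, 0)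

/-- the seven palindromes -/
def P3 : List (List (Fin 3)) := [[], [0], [1], [2], [0, 0], [0, 1, 0], [0, 2, 0]]

theorem check3_0 : Check0 cls3 5 δ3 2 g3 [1, 0, 2] [1, 0, 0] ψ3 := by decide +kernel
theorem check3_1 : Check1 cls3 5 δ3 2 g3 ψ3 := by decide +kernel
theorem check3_2 : Check2 cls3 5 δ3 2 g3 P3 := by decide +kernel

/-! ### The binary word -/

/-- displacements for the binary word; `0, 1` are the letters of `P`, `2, 3, 4` the letters of `Q`,
`5` the letter of a horizontal edge, `6, 7` the letters of a vertical edge -/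
def δ2 : ℕ → ℕ → Option (ℤ × ℤ) := tab
  [((0, 1), (0, 0)), ((1, 2), (0, 0)), ((1, 5), (0, 0)), ((1, 6), (0, 0)), ((2, 3), (0, 0)),
   ((3, 4), (0, 0)), ((4, 0), (0, 0)), ((4, 5), (-1, 0)), ((4, 6), (0, -1)), ((5, 0), (0, 0)),
   ((5, 2), (1, 0)), ((6, 7), (0, 0)), ((7, 0), (0, 0)), ((7, 2), (0, 1))]

/-- classes -/
def cls2 (s : ℕ) : ℕ := if s ≤ 1 then 0 else if s ≤ 4 then 1 else if s ≤ 5 then 2 else 3

/-- letters -/
def g2 (s : ℕ) : Fin 2 := if s = 0 ∨ s = 2 ∨ s = 3 then 1 else 0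

/-- correction of positions -/
def ψ2 (l : List ℕ) : ℤ × ℤ :=
  if l.take 3 = [1, 5, 2] ∨ l.take 2 = [5, 2] then (1, 0)
  else if l.take 3 = [3, 4, 5] ∨ l.take 2 = [4, 5] then (-1, 0)
  else if l.take 3 = [6, 7, 2] ∨ l.take 2 = [7, 2] then (0, 1)
  else if l.take 3 = [3, 4, 6] ∨ l.take 2 = [4, 6] then (0, -1)
  else (0, 0)

/-- the thirteen palindromes -/
def P2 : List (List (Fin 2)) := [[], [0], [1], [0, 0], [1, 1], [0, 0, 0], [0, 1, 0], [1, 0, 1],
  [0, 1, 1, 0], [1, 0, 0, 1], [1, 0, 0, 0, 1], [0, 0, 1, 0, 0], [0, 0, 1, 1, 0, 0]]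

theorem check2_0 : Check0 cls2 8 δ2 4 g2 [1, 0, 0, 1, 1] [0, 0, 0, 1, 1] ψ2 := by decide +kernel
theorem check2_1 : Check1 cls2 8 δ2 4 g2 ψ2 := by decide +kernel
theorem check2_2 : Check2 cls2 8 δ2 4 g2 P2 := by decide +kernel

theorem exists_of_infix_map' {β γ : Type} (f : β → γ) (l : List β) (v : List γ)
    (h : v <:+: l.map f) : ∃ a, a <:+: l ∧ v = a.map f := by
  obtain ⟨s, t, e⟩ := h
  obtain ⟨l1, l2, rfl, h1, h2⟩ := List.map_eq_append_iff.mp e.symm
  obtain ⟨l3, l4, rfl, h3, h4⟩ := List.map_eq_append_iff.mp h1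
  exact ⟨l4, ⟨l3, l2, rfl⟩, h4.symm⟩

/-! ### Blocks -/

/-- replace every node by a block of nodes -/
def gr (bl : ℕ → List ℕ) (v : Nd) : List Nd := (bl v.2.2).map (fun s => (v.1, v.2.1, s))

/-- the walk with at most three labels -/
def E3 (n : ℕ) : List Nd := EE (fun _ => 3) n

theorem E3_lab (n : ℕ) : ∀ v ∈ E3 n, v.2.2 ≤ 3 := by
  intro v hv
  have : v.2.2 ∈ lb (fun _ => 3) n := List.mem_map.mpr ⟨v, hv, rfl⟩
  rcases lb_mem _ n _ this with h | ⟨m, _, h⟩
  · omega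
  · omega

theorem chain_flatMap (S : Nd → Nd → Prop) (bl : ℕ → List ℕ)
    (hin : ∀ v : Nd, (gr bl v).IsChain S) (hne : ∀ c, bl c ≠ [])
    (hout : ∀ a b : Nd, St a b → ∀ x ∈ (gr bl a).getLast?, ∀ y ∈ (gr bl b).head?, S x y)
    (l : List Nd) (hl : l.IsChain St) : (l.flatMap (gr bl)).IsChain S := by
  induction l with
  | nil => simp
  | cons a l ih =>
    have h := List.isChain_cons.mp hl
    rw [List.flatMap_cons, List.isChain_append]
    refine ⟨hin a, ih h.2, ?_⟩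
    intro x hx y hy
    rcases l with _ | ⟨b, l⟩
    · simp at hy
    · apply hout a b (h.1 b (by simp)) x hx y
      rw [List.flatMap_cons, List.head?_append] at hy
      have hb : gr bl b ≠ [] := by
        simp only [gr, ne_eq, List.map_eq_nil_iff]; exact hne _
      rcases hgb : gr bl b with _ | ⟨z, t⟩
      · exact absurd hgb hb
      · rw [hgb] at hy
        simpa using hy

theorem pairwise_flatMap_gr (cls : ℕ → ℕ) (bl : ℕ → List ℕ)
    (hcls : ∀ c, c ≤ 3 → ∀ s ∈ bl c, cls s = c) (hpw : ∀ c, (bl c).Pairwise (· < ·))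
    (l : List Nd) (hl : l.Nodup) (hlab : ∀ v ∈ l, v.2.2 ≤ 3) :
    (l.flatMap (gr bl)).Pairwise (Ord cls) := by
  rw [List.pairwise_flatMap]
  constructor
  · intro a _
    simp only [gr]
    rw [List.pairwise_map]
    apply (hpw a.2.2).imp
    intro s t hst h
    have := h.2.2.2
    simp only at this
    omega
  · apply List.Pairwise.imp_of_mem _ hl
    intro a b ha hb hab x hx y hy h
    simp only [gr, List.mem_map] at hx hy
    obtain ⟨s, hs, rfl⟩ := hx
    obtain ⟨t, ht, rfl⟩ := hy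
    obtain ⟨h1, h2, h3, _⟩ := h
    simp only at h1 h2 h3
    rw [hcls _ (hlab a ha) s hs, hcls _ (hlab b hb) t ht] at h3
    apply hab
    ext
    · exact h1
    · exact h2
    · exact h3

theorem letters_flatMap {α : Type} (g : ℕ → α) (bl : ℕ → List ℕ) (l : List Nd) :
    letters g (l.flatMap (gr bl)) = (l.map (fun v => v.2.2)).flatMap (fun c => (bl c).map g) := by
  induction l with
  | nil => rfl
  | cons a l ih =>
    rw [List.flatMap_cons, List.map_cons, List.flatMap_cons, ← ih]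
    simp [letters, gr]

/-- blocks of the ternary word -/
def bl3 (c : ℕ) : List ℕ := if c = 0 then [0] else if c = 1 then [1] else if c = 2 then [2]
  else [3, 4]

/-- blocks of the binary word -/
def bl2 (c : ℕ) : List ℕ := if c = 0 then [0, 1] else if c = 1 then [2, 3, 4]
  else if c = 2 then [5] else [6, 7]

theorem bl3_chain (v : Nd) : (gr bl3 v).IsChain (RelA δ3) := by
  simp only [gr, bl3]
  split_ifs
  · simp
  · simp
  · simp
  · simp [RelA, δ3, tab]

theorem bl2_chain (v : Nd) : (gr bl2 v).IsChain (RelA δ2) := by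
  simp only [gr, bl2]
  split_ifs
  · simp [RelA, δ2, tab]
  · simp [RelA, δ2, tab]
  · simp
  · simp [RelA, δ2, tab]

theorem bl3_out (a b : Nd) (h : St a b) :
    ∀ x ∈ (gr bl3 a).getLast?, ∀ y ∈ (gr bl3 b).head?, RelA δ3 x y := by
  obtain ⟨x1, y1, c1⟩ := a
  obtain ⟨x2, y2, c2⟩ := b
  intro x hx y hy
  rcases h with h | h <;> simp only [Hf] at h <;> rcases h with ⟨h3, h4, h5, h6⟩ |
      ⟨h3, h4, h5, h6⟩ | ⟨h3, h4, h5, h6⟩ | ⟨h3, h4, h5, h6⟩ | ⟨h3, h4, h5, h6⟩
  · subst h3 h4 h5 h6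
    simp [gr, bl3] at hx hy; subst hx hy; simp [RelA, δ3, tab]
  · subst h3 h4 h5 h6
    simp [gr, bl3] at hx hy; subst hx hy; simp [RelA, δ3, tab]
  · subst h3 h4 h5 h6
    simp [gr, bl3] at hx hy; subst hx hy; simp [RelA, δ3, tab]
  · subst h3 h5 h6
    simp only [gr, bl3, if_neg (show ¬ c2 = 0 by omega), if_neg (show ¬ c2 = 1 by omega),
      if_neg (show ¬ c2 = 2 by omega)] at hy
    simp [gr, bl3] at hx hy; subst hx hy; simp [RelA, δ3, tab]
  · subst h4 h5 h6
    simp only [gr, bl3, if_neg (show ¬ c1 = 0 by omega), if_neg (show ¬ c1 = 1 by omega),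
      if_neg (show ¬ c1 = 2 by omega)] at hx
    simp [gr, bl3] at hx hy; subst hx hy; simp [RelA, δ3, tab]
  · subst h3 h4 h5 h6
    simp [gr, bl3] at hx hy; subst hx hy; simp [RelA, δ3, tab]
  · subst h3 h4 h5 h6
    simp [gr, bl3] at hx hy; subst hx hy; simp [RelA, δ3, tab]
  · subst h3 h4 h5 h6
    simp [gr, bl3] at hx hy; subst hx hy; simp [RelA, δ3, tab]
  · subst h3 h5 h6
    simp only [gr, bl3, if_neg (show ¬ c1 = 0 by omega), if_neg (show ¬ c1 = 1 by omega),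
      if_neg (show ¬ c1 = 2 by omega)] at hx
    simp [gr, bl3] at hx hy; subst hx hy; simp [RelA, δ3, tab]
  · subst h4 h5 h6
    simp only [gr, bl3, if_neg (show ¬ c2 = 0 by omega), if_neg (show ¬ c2 = 1 by omega),
      if_neg (show ¬ c2 = 2 by omega)] at hy
    simp [gr, bl3] at hx hy; subst hx hy; simp [RelA, δ3, tab]

theorem bl2_out (a b : Nd) (h : St a b) :
    ∀ x ∈ (gr bl2 a).getLast?, ∀ y ∈ (gr bl2 b).head?, RelA δ2 x y := by
  obtain ⟨x1, y1, c1⟩ := a
  obtain ⟨x2, y2, c2⟩ := b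
  intro x hx y hy
  rcases h with h | h <;> simp only [Hf] at h <;> rcases h with ⟨h3, h4, h5, h6⟩ |
      ⟨h3, h4, h5, h6⟩ | ⟨h3, h4, h5, h6⟩ | ⟨h3, h4, h5, h6⟩ | ⟨h3, h4, h5, h6⟩
  · subst h3 h4 h5 h6
    simp [gr, bl2] at hx hy; subst hx hy; simp [RelA, δ2, tab]
  · subst h3 h4 h5 h6
    simp [gr, bl2] at hx hy; subst hx hy; simp [RelA, δ2, tab]
  · subst h3 h4 h5 h6
    simp [gr, bl2] at hx hy; subst hx hy; simp [RelA, δ2, tab]
  · subst h3 h5 h6
    simp only [gr, bl2, if_neg (show ¬ c2 = 0 by omega), if_neg (show ¬ c2 = 1 by omega),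
      if_neg (show ¬ c2 = 2 by omega)] at hy
    simp [gr, bl2] at hx hy; subst hx hy; simp [RelA, δ2, tab]
  · subst h4 h5 h6
    simp only [gr, bl2, if_neg (show ¬ c1 = 0 by omega), if_neg (show ¬ c1 = 1 by omega),
      if_neg (show ¬ c1 = 2 by omega)] at hx
    simp [gr, bl2] at hx hy; subst hx hy; simp [RelA, δ2, tab]
  · subst h3 h4 h5 h6
    simp [gr, bl2] at hx hy; subst hx hy; simp [RelA, δ2, tab]
  · subst h3 h4 h5 h6
    simp [gr, bl2] at hx hy; subst hx hy; simp [RelA, δ2, tab]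
  · subst h3 h4 h5 h6
    simp [gr, bl2] at hx hy; subst hx hy; simp [RelA, δ2, tab]
  · subst h3 h5 h6
    simp only [gr, bl2, if_neg (show ¬ c1 = 0 by omega), if_neg (show ¬ c1 = 1 by omega),
      if_neg (show ¬ c1 = 2 by omega)] at hx
    simp [gr, bl2] at hx hy; subst hx hy; simp [RelA, δ2, tab]
  · subst h4 h5 h6
    simp only [gr, bl2, if_neg (show ¬ c2 = 0 by omega), if_neg (show ¬ c2 = 1 by omega),
      if_neg (show ¬ c2 = 2 by omega)] at hy
    simp [gr, bl2] at hx hy; subst hx hy; simp [RelA, δ2, tab]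

theorem inv3 (n : ℕ) : (E3 n).Nodup ∧ (E3 n).IsChain St :=
  ⟨(EE_inv (fun _ => 3) (fun _ => le_refl _) n).nodup,
    (EE_inv (fun _ => 3) (fun _ => le_refl _) n).chain⟩

/-- factors of the words of letters -/
theorem hpal_gen {α : Type} [DecidableEq α] [Fintype α] {cls : ℕ → ℕ} {N : ℕ}
    {δ : ℕ → ℕ → Option (ℤ × ℤ)} {k : ℕ} {g : ℕ → α} {t1 t2 : List α} {ψ : List ℕ → ℤ × ℤ}
    {P : List (List α)} (bl : ℕ → List ℕ)
    (hcls : ∀ c, c ≤ 3 → ∀ s ∈ bl c, cls s = c) (hpw : ∀ c, (bl c).Pairwise (· < ·))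
    (hin : ∀ v : Nd, (gr bl v).IsChain (RelA δ)) (hne : ∀ c, bl c ≠ [])
    (hout : ∀ a b : Nd, St a b → ∀ x ∈ (gr bl a).getLast?, ∀ y ∈ (gr bl b).head?, RelA δ x y)
    (hN : ∀ c, ∀ s ∈ bl c, s < N)
    (hk : 1 ≤ k) (ht1 : t1.length = k + 1) (ht2 : t2.length = k + 1)
    (hc0 : Check0 cls N δ k g t1 t2 ψ) (hc1 : Check1 cls N δ k g ψ) (hc2 : Check2 cls N δ k g P)
    (n : ℕ) (v : List α) (hv : v <:+: letters g ((E3 n).flatMap (gr bl)))
    (hp : KPal (k + 1) v) : v ∈ P := by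
  obtain ⟨a, ha, rfl⟩ := exists_of_infix_map' _ _ _ hv
  obtain ⟨i1, i2⟩ := inv3 n
  have h1 := pairwise_flatMap_gr cls bl hcls hpw (E3 n) i1 (E3_lab n)
  have h2 := chain_flatMap (RelA δ) bl hin hne hout (E3 n) i2
  apply kpal_mem hk ht1 ht2 hc0 hc1 hc2 a (h1.sublist ha.sublist) (isChain_part h2 ha) _ hp
  intro u hu
  have := ha.subset hu
  rw [List.mem_flatMap] at this
  obtain ⟨z, _, hz⟩ := this
  simp only [gr, List.mem_map] at hz
  obtain ⟨s, hs, rfl⟩ := hz
  exact hN _ s hs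

/-- the letters of the ternary word of level `n` -/
def L3 (n : ℕ) : List (Fin 3) := letters g3 ((E3 n).flatMap (gr bl3))

/-- the letters of the binary word of level `n` -/
def L2 (n : ℕ) : List (Fin 2) := letters g2 ((E3 n).flatMap (gr bl2))

theorem L3_eq (n : ℕ) : L3 n = (lb (fun _ => 3) n).flatMap (fun c => (bl3 c).map g3) :=
  letters_flatMap _ _ _

theorem L2_eq (n : ℕ) : L2 n = (lb (fun _ => 3) n).flatMap (fun c => (bl2 c).map g2) :=
  letters_flatMap _ _ _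

theorem flatMap_reverse3 (l : List ℕ) :
    l.reverse.flatMap (fun c => (bl3 c).map g3) = (l.flatMap (fun c => (bl3 c).map g3)).reverse := by
  induction l with
  | nil => rfl
  | cons c l ih =>
    rw [List.reverse_cons, List.flatMap_append, ih, List.flatMap_singleton, List.flatMap_cons,
      List.reverse_append]
    congr 1
    simp only [bl3]
    split_ifs <;> simp [g3]

theorem flatMap_reverse2 (l : List ℕ) :
    (0 : Fin 2) :: l.reverse.flatMap (fun c => (bl2 c).map g2) =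
      (l.flatMap (fun c => (bl2 c).map g2)).reverse ++ [0] := by
  induction l with
  | nil => rfl
  | cons c l ih =>
    rw [List.reverse_cons, List.flatMap_append, ← List.cons_append, ih, List.flatMap_singleton,
      List.flatMap_cons, List.reverse_append, List.append_assoc, List.append_assoc]
    congr 1
    simp only [bl2]
    split_ifs <;> simp [g2]

theorem flatMap_last2 (l : List ℕ) (hl : l ≠ []) :
    ∃ Y, l.flatMap (fun c => (bl2 c).map g2) = Y ++ [(0 : Fin 2)] := by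
  obtain ⟨l', c, rfl⟩ : ∃ l' c, l = l' ++ [c] :=
    ⟨l.dropLast, l.getLast hl, (List.dropLast_append_getLast hl).symm⟩
  rw [List.flatMap_append, List.flatMap_singleton]
  simp only [bl2]
  split_ifs
  · exact ⟨l'.flatMap (fun c => (bl2 c).map g2) ++ [1], by simp [g2, bl2]⟩
  · exact ⟨l'.flatMap (fun c => (bl2 c).map g2) ++ [1, 1], by simp [g2, bl2]⟩
  · exact ⟨l'.flatMap (fun c => (bl2 c).map g2), by simp [g2, bl2]⟩
  · exact ⟨l'.flatMap (fun c => (bl2 c).map g2) ++ [0], by simp [g2, bl2]⟩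

end Pool.Agent.H.MP_d67245_co
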