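import Pool.Agent.H.MP_d67245_co.Enc

/-!
# At least four letters
-/

set_option autoImplicit false

namespace Pool.Agent.H.MP_d67245_co

theorem exists_of_infix_map {β γ : Type} (f : β → γ) (l : List β) (v : List γ)
    (h : v <:+: l.map f) : ∃ a, a <:+: l ∧ v = a.map f := by
  obtain ⟨s, t, e⟩ := h
  obtain ⟨l1, l2, rfl, h1, h2⟩ := List.map_eq_append_iff.mp e.symm
  obtain ⟨l3, l4, rfl, h3, h4⟩ := List.map_eq_append_iff.mp h1
  exact ⟨l4, ⟨l3, l2, rfl⟩, h4.symm⟩

section

variable (ℓ : ℕ) (hℓ : 4 ≤ ℓ)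

/-- letters of nodes -/
def gl (c : ℕ) : Fin ℓ := ⟨c % ℓ, Nat.mod_lt _ (by omega)⟩

theorem gl_inj {c d : ℕ} (hc : c < ℓ) (hd : d < ℓ) (h : gl ℓ hℓ c = gl ℓ hℓ d) : c = d := by
  have := congrArg Fin.val h
  simp only [gl] at this
  rwa [Nat.mod_eq_of_lt hc, Nat.mod_eq_of_lt hd] at this

theorem occ_two (p q x y : Fin ℓ) (v : List (Fin ℓ)) :
    (occ [p, q] (x :: y :: v) : ℤ) = (if p = x ∧ q = y then 1 else 0) + occ [p, q] (y :: v) := by
  rw [occ_cons]
  simp only [List.cons_prefix_cons, List.nil_prefix, and_true]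
  push_cast
  rfl

/-- horizontal displacement -/
def D1 (v : List (Fin ℓ)) : ℤ :=
  (occ [gl ℓ hℓ 2, gl ℓ hℓ 1] v : ℤ) - occ [gl ℓ hℓ 1, gl ℓ hℓ 2] v

/-- vertical displacement -/
def D2 (v : List (Fin ℓ)) : ℤ :=
  ∑ c ∈ Finset.univ.filter (fun c : Fin ℓ => 3 ≤ c.val),
    ((occ [c, gl ℓ hℓ 1] v : ℤ) - occ [gl ℓ hℓ 1, c] v)

theorem displacement (a : List Nd) : ∀ (x z : Nd), (x :: a).IsChain St →
    (∀ v ∈ x :: a, v.2.2 < ℓ) → (x :: a).getLast? = some z →
    D1 ℓ hℓ ((x :: a).map (fun v => gl ℓ hℓ v.2.2)) = z.1 - x.1 ∧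
    D2 ℓ hℓ ((x :: a).map (fun v => gl ℓ hℓ v.2.2)) = z.2.1 - x.2.1 := by
  induction a with
  | nil =>
    intro x z _ _ hz
    have : x = z := by simpa using hz
    subst this
    constructor
    · simp only [D1, List.map_cons, List.map_nil]
      rw [occ_eq_zero_of_length_lt (by simp), occ_eq_zero_of_length_lt (by simp)]
      simp
    · simp only [D2, List.map_cons, List.map_nil]
      rw [Finset.sum_eq_zero]
      · simp
      · intro c _
        rw [occ_eq_zero_of_length_lt (by simp), occ_eq_zero_of_length_lt (by simp)]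
        simp
  | cons y a ih =>
    intro x z h1 h2 hz
    have h1' := List.isChain_cons.mp h1
    have hS : St x y := h1'.1 y (by simp)
    obtain ⟨e1, e2⟩ := ih y z h1'.2 (fun v hv => h2 v (List.mem_cons_of_mem _ hv))
      (by rwa [List.getLast?_cons_cons] at hz)
    have hx : x.2.2 < ℓ := h2 x (by simp)
    have hy : y.2.2 < ℓ := h2 y (by simp)
    have g1 : ∀ c, c < ℓ → (gl ℓ hℓ 1 = gl ℓ hℓ c ↔ c = 1) := fun c hc =>
      ⟨fun h => (gl_inj ℓ hℓ (by omega) hc h).symm, fun h => by rw [h]⟩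
    have g2 : ∀ c, c < ℓ → (gl ℓ hℓ 2 = gl ℓ hℓ c ↔ c = 2) := fun c hc =>
      ⟨fun h => (gl_inj ℓ hℓ (by omega) hc h).symm, fun h => by rw [h]⟩
    constructor
    · have : D1 ℓ hℓ ((x :: y :: a).map (fun v => gl ℓ hℓ v.2.2)) =
          (if x.2.2 = 2 ∧ y.2.2 = 1 then 1 else 0) - (if x.2.2 = 1 ∧ y.2.2 = 2 then 1 else 0) +
          D1 ℓ hℓ ((y :: a).map (fun v => gl ℓ hℓ v.2.2)) := by
        simp only [D1, List.map_cons, occ_two]
        simp only [g1 _ hx, g1 _ hy, g2 _ hx, g2 _ hy]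
        ring
      rw [this, e1]
      rcases hS with h | h <;> rcases h with ⟨h3, h4, h5, h6⟩ | ⟨h3, h4, h5, h6⟩ |
        ⟨h3, h4, h5, h6⟩ | ⟨h3, h4, h5, h6⟩ | ⟨h3, h4, h5, h6⟩ <;> split_ifs <;> omega
    · have : D2 ℓ hℓ ((x :: y :: a).map (fun v => gl ℓ hℓ v.2.2)) =
          (if 3 ≤ x.2.2 ∧ y.2.2 = 1 then 1 else 0) - (if x.2.2 = 1 ∧ 3 ≤ y.2.2 then 1 else 0) +
          D2 ℓ hℓ ((y :: a).map (fun v => gl ℓ hℓ v.2.2)) := by
        simp only [D2, List.map_cons, occ_two, g1 _ hx, g1 _ hy]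
        have s1 : ∑ c ∈ Finset.univ.filter (fun c : Fin ℓ => 3 ≤ c.val),
            (if c = gl ℓ hℓ x.2.2 ∧ y.2.2 = 1 then (1 : ℤ) else 0) =
            if 3 ≤ x.2.2 ∧ y.2.2 = 1 then 1 else 0 := by
          by_cases hy1 : y.2.2 = 1
          · simp only [hy1, and_true]
            rw [Finset.sum_ite_eq']
            simp only [Finset.mem_filter, Finset.mem_univ, true_and, gl, Nat.mod_eq_of_lt hx]
          · simp [hy1]
        have s2 : ∑ c ∈ Finset.univ.filter (fun c : Fin ℓ => 3 ≤ c.val),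
            (if x.2.2 = 1 ∧ c = gl ℓ hℓ y.2.2 then (1 : ℤ) else 0) =
            if x.2.2 = 1 ∧ 3 ≤ y.2.2 then 1 else 0 := by
          by_cases hx1 : x.2.2 = 1
          · simp only [hx1, true_and]
            rw [Finset.sum_ite_eq']
            simp only [Finset.mem_filter, Finset.mem_univ, true_and, gl, Nat.mod_eq_of_lt hy]
          · simp [hx1]
        rw [← s1, ← s2, ← Finset.sum_sub_distrib, ← Finset.sum_add_distrib]
        apply Finset.sum_congr rfl
        intro c _
        ring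
      rw [this, e2]
      rcases hS with h | h <;> rcases h with ⟨h3, h4, h5, h6⟩ | ⟨h3, h4, h5, h6⟩ |
        ⟨h3, h4, h5, h6⟩ | ⟨h3, h4, h5, h6⟩ | ⟨h3, h4, h5, h6⟩ <;> split_ifs <;> omega

theorem kpal_two (a : List Nd) (h1 : a.Nodup) (h2 : a.IsChain St) (h3 : ∀ v ∈ a, v.2.2 < ℓ)
    (hp : KPal 2 (a.map (fun v => gl ℓ hℓ v.2.2))) : a.length ≤ 1 := by
  rcases a with _ | ⟨x, a⟩
  · simp
  · rcases hz : (x :: a).getLast? with _ | z
    · simp at hz
    · obtain ⟨e1, e2⟩ := displacement ℓ hℓ a x z h2 h3 hz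
      have z1 : D1 ℓ hℓ ((x :: a).map (fun v => gl ℓ hℓ v.2.2)) = 0 := by
        simp only [D1]
        rw [hp.occ_eq [gl ℓ hℓ 2, gl ℓ hℓ 1] (by simp)]
        simp
      have z2 : D2 ℓ hℓ ((x :: a).map (fun v => gl ℓ hℓ v.2.2)) = 0 := by
        simp only [D2]
        apply Finset.sum_eq_zero
        intro c _
        rw [hp.occ_eq [c, gl ℓ hℓ 1] (by simp)]
        simp
      have hlab : x.2.2 = z.2.2 := by
        have h4 := KPal.take_eq (k := 1) hp
        have h5 : (((x :: a).map (fun v => gl ℓ hℓ v.2.2)).reverse).head? =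
            some (gl ℓ hℓ z.2.2) := by
          rw [List.head?_reverse, List.getLast?_map, hz]
          rfl
        have h6 : (((x :: a).map (fun v => gl ℓ hℓ v.2.2)).take 1).head? =
            some (gl ℓ hℓ z.2.2) := by
          rw [h4, List.head?_take, if_neg (by omega)]
          exact h5
        simp only [List.map_cons, List.take_succ_cons, List.head?_cons, Option.some.injEq] at h6
        exact gl_inj ℓ hℓ (h3 x (by simp)) (h3 z (List.mem_of_getLast? hz)) h6
      have hxz : x = z := by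
        ext
        · omega
        · omega
        · exact hlab
      subst hxz
      rcases a with _ | ⟨y, a⟩
      · simp
      · exfalso
        rw [List.getLast?_cons_cons] at hz
        exact (List.nodup_cons.mp h1).1 (List.mem_of_getLast? hz)

theorem upper4 (k : ℕ) (hk : 2 ≤ k) (lab : ℕ → ℕ) (hlab : ∀ n, 3 ≤ lab n)
    (hlab' : ∀ n, lab n < ℓ) (U : Finset (Fin ℓ)) (hU : ∀ n, ∀ c ∈ lb lab n, gl ℓ hℓ c ∈ U) :
    ∃ w : ℕ → Fin ℓ, ClosedUnderReversal w ∧ Pal k w ≤ ((U.card + 1 : ℕ) : ℕ∞) ∧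
      ∀ n, ∀ c ∈ lb lab n, gl ℓ hℓ c ∈ Set.range w := by
  classical
  obtain ⟨w, h1, h2, h3⟩ := exists_word (fun n => (lb lab n).map (gl ℓ hℓ))
    (by simp [lb, EE])
    (by
      intro n
      obtain ⟨Z, hZ, e⟩ := lb_succ lab n
      refine ⟨(Z ++ (lb lab n).reverse).map (gl ℓ hℓ), by simp [hZ], ?_⟩
      simp only [e, List.map_append, List.append_assoc])
    (by
      intro n
      obtain ⟨Z, hZ, e⟩ := lb_succ lab n
      refine ⟨n + 1, ?_⟩
      simp only [e, List.map_append, List.map_reverse]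
      exact (List.suffix_append _ _).isInfix) k
    (insert [] (U.image (fun c => [c])))
    (by
      intro n v hv hp
      have hv' : v <:+: (EE lab n).map (fun v => gl ℓ hℓ v.2.2) := by
        simp only [lb, List.map_map] at hv
        exact hv
      obtain ⟨a, ha, rfl⟩ := exists_of_infix_map _ _ _ hv'
      have hinv := EE_inv lab hlab n
      have hlt : ∀ v ∈ a, v.2.2 < ℓ := by
        intro v hv
        have : v.2.2 ∈ lb lab n := by
          simp only [lb, List.mem_map]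
          exact ⟨v, ha.subset hv, rfl⟩
        rcases lb_mem lab n _ this with h | ⟨m, _, h⟩
        · omega
        · rw [h]; exact hlab' m
      have hlen := kpal_two ℓ hℓ a (hinv.nodup.sublist ha.sublist) (isChain_part hinv.chain ha) hlt
        (hp.mono hk)
      rcases a with _ | ⟨x, a⟩
      · simp
      · have : a = [] := by
          simp only [List.length_cons] at hlen
          exact List.length_eq_zero_iff.mp (by omega)
        subst this
        rw [Finset.mem_insert, Finset.mem_image]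
        right
        refine ⟨gl ℓ hℓ x.2.2, hU n _ ?_, rfl⟩
        simp only [lb, List.mem_map]
        exact ⟨x, ha.subset (by simp), rfl⟩)
  refine ⟨w, h1, h2.trans ?_, ?_⟩
  · norm_cast
    exact (Finset.card_insert_le _ _).trans (by
      have := Finset.card_image_le (s := U) (f := fun c : Fin ℓ => [c])
      omega)
  · intro n c hc
    exact h3 n _ (List.mem_map.mpr ⟨c, hc, rfl⟩)

end

end Pool.Agent.H.MP_d67245_co
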