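import Pool.Agent.H.MP_d67245_co.Enc23
import Pool.Agent.H.MP_d67245_co.Enc4

/-!
# The minimal number of `k`-abelian palindromes
-/

set_option autoImplicit false

namespace Pool.Agent.H.MP_d67245_co

theorem upper3 (k : ℕ) (hk : 3 ≤ k) :
    ∃ w : ℕ → Fin 3, Function.Surjective w ∧ ClosedUnderReversal w ∧ Pal k w ≤ 7 := by
  obtain ⟨w, h1, h2, h3⟩ := exists_word L3 (by simp [L3, E3, EE, gr, bl3, letters])
    (by
      intro n
      obtain ⟨Z, hZ, e⟩ := lb_succ (fun _ => 3) n
      refine ⟨Z.flatMap (fun c => (bl3 c).map g3) ++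
        (lb (fun _ => 3) n).reverse.flatMap (fun c => (bl3 c).map g3), ?_, ?_⟩
      · rcases Z with _ | ⟨c, Z⟩
        · exact absurd rfl hZ
        · rw [List.flatMap_cons]
          have : bl3 c ≠ [] := by simp only [bl3]; split_ifs <;> simp
          simp [this]
      · rw [L3_eq, L3_eq, e, List.flatMap_append, List.flatMap_append, List.append_assoc])
    (by
      intro n
      obtain ⟨Z, hZ, e⟩ := lb_succ (fun _ => 3) n
      refine ⟨n + 1, ?_⟩
      rw [L3_eq, L3_eq, e, List.flatMap_append, flatMap_reverse3]
      exact (List.suffix_append _ _).isInfix) k P3.toFinset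
    (by
      intro n v hv hp
      rw [List.mem_toFinset]
      exact hpal_gen bl3 (by
          intro c hc s hs
          interval_cases c <;> simp [bl3] at hs <;> simp [cls3, hs]
          rcases hs with rfl | rfl <;> simp)
        (by intro c; simp only [bl3]; split_ifs <;> simp) bl3_chain
        (by intro c; simp only [bl3]; split_ifs <;> simp) bl3_out
        (by
          intro c s hs
          simp only [bl3] at hs
          split_ifs at hs <;> simp at hs <;> omega)
        (by omega) rfl rfl check3_0 check3_1 check3_2 n v hv (hp.mono hk))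
  refine ⟨w, ?_, h1, h2.trans ?_⟩
  · intro c
    apply h3 0 c
    have : L3 0 = [1, 0, 2, 1] := by
      simp [L3, E3, EE, gr, bl3, letters, g3]
    rw [this]
    fin_cases c <;> simp
  · have : P3.toFinset.card = 7 := by decide
    rw [this]
    norm_num

theorem upper2 (k : ℕ) (hk : 5 ≤ k) :
    ∃ w : ℕ → Fin 2, Function.Surjective w ∧ ClosedUnderReversal w ∧ Pal k w ≤ 13 := by
  obtain ⟨w, h1, h2, h3⟩ := exists_word L2 (by simp [L2, E3, EE, gr, bl2, letters])
    (by
      intro n
      obtain ⟨Z, hZ, e⟩ := lb_succ (fun _ => 3) n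
      refine ⟨Z.flatMap (fun c => (bl2 c).map g2) ++
        (lb (fun _ => 3) n).reverse.flatMap (fun c => (bl2 c).map g2), ?_, ?_⟩
      · rcases Z with _ | ⟨c, Z⟩
        · exact absurd rfl hZ
        · rw [List.flatMap_cons]
          have : bl2 c ≠ [] := by simp only [bl2]; split_ifs <;> simp
          simp [this]
      · rw [L2_eq, L2_eq, e, List.flatMap_append, List.flatMap_append, List.append_assoc])
    (by
      intro n
      obtain ⟨Z, hZ, e⟩ := lb_succ (fun _ => 3) n
      refine ⟨n + 1, ?_⟩
      obtain ⟨Y, hY⟩ := flatMap_last2 Z hZ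
      rw [L2_eq, L2_eq, e, List.flatMap_append, List.flatMap_append, hY]
      have e2 := flatMap_reverse2 (lb (fun _ => 3) n)
      have e3 : (lb (fun _ => 3) n).flatMap (fun c => (bl2 c).map g2) ++ (Y ++ [0]) ++
          (lb (fun _ => 3) n).reverse.flatMap (fun c => (bl2 c).map g2) =
          ((lb (fun _ => 3) n).flatMap (fun c => (bl2 c).map g2) ++ Y) ++
          ((lb (fun _ => 3) n).flatMap (fun c => (bl2 c).map g2)).reverse ++ [0] := by
        rw [List.append_assoc _ _ [0], ← e2]
        simp
      rw [e3]
      exact ⟨_, _, rfl⟩) k P2.toFinset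
    (by
      intro n v hv hp
      rw [List.mem_toFinset]
      exact hpal_gen bl2 (by
          intro c hc s hs
          interval_cases c <;> simp [bl2] at hs
          · rcases hs with rfl | rfl <;> simp [cls2]
          · rcases hs with rfl | rfl | rfl <;> simp [cls2]
          · simp [cls2, hs]
          · rcases hs with rfl | rfl <;> simp [cls2])
        (by intro c; simp only [bl2]; split_ifs <;> simp) bl2_chain
        (by intro c; simp only [bl2]; split_ifs <;> simp) bl2_out
        (by
          intro c s hs
          simp only [bl2] at hs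
          split_ifs at hs <;> simp at hs <;> omega)
        (by omega) rfl rfl check2_0 check2_1 check2_2 n v hv (hp.mono hk))
  refine ⟨w, ?_, h1, h2.trans ?_⟩
  · intro c
    apply h3 0 c
    have : L2 0 = [1, 0, 0, 1, 1, 0, 1, 0] := by
      simp [L2, E3, EE, gr, bl2, letters, g2]
    rw [this]
    fin_cases c <;> simp
  · have : P2.toFinset.card = 13 := by decide
    rw [this]
    norm_num

/-- the values attained by words over `ℓ` letters -/
theorem isLeast_of {X : Set ℕ∞} {v : ℕ∞} (h1 : ∃ x ∈ X, x ≤ v) (h2 : ∀ x ∈ X, v ≤ x) :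
    IsLeast X v := by
  obtain ⟨x, hx, hxv⟩ := h1
  have : x = v := le_antisymm hxv (h2 x hx)
  exact ⟨this ▸ hx, h2⟩

theorem main (k ℓ : ℕ) (hk : 1 ≤ k) (hℓ : 2 ≤ ℓ) (hS : (k, ℓ) ∉ S) :
    IsLeast {N : ℕ∞ | ∃ w : ℕ → Fin ℓ, ClosedUnderReversal w ∧ Pal k w = N}
      (if ℓ = 2 then 13 else if ℓ = 3 then 7 else 5) ∧
    IsLeast {N : ℕ∞ | ∃ w : ℕ → Fin ℓ, Function.Surjective w ∧ ClosedUnderReversal w ∧
      Pal k w = N} (if ℓ = 2 then 13 else if ℓ = 3 then 7 else (ℓ : ℕ∞) + 1) := by
  have hk1 : k ≠ 1 := by
    intro h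
    exact hS (Or.inl ⟨h, hℓ⟩)
  by_cases h2 : ℓ = 2
  · subst h2
    have hk5 : 5 ≤ k := by
      by_contra hcon
      apply hS
      right
      have : k = 2 ∨ k = 3 ∨ k = 4 := by omega
      rcases this with rfl | rfl | rfl <;> simp
    obtain ⟨w, hw1, hw2, hw3⟩ := upper2 k hk5
    simp only [if_true]
    exact ⟨isLeast_of ⟨_, ⟨w, hw2, rfl⟩, hw3⟩ (by
        rintro x ⟨w', h1, rfl⟩; exact lower2 k hk5 w' h1),
      isLeast_of ⟨_, ⟨w, hw1, hw2, rfl⟩, hw3⟩ (by
        rintro x ⟨w', _, h1, rfl⟩; exact lower2 k hk5 w' h1)⟩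
  · by_cases h3 : ℓ = 3
    · subst h3
      have hk3 : 3 ≤ k := by
        by_contra hcon
        apply hS
        right
        have : k = 2 := by omega
        subst this
        simp
      obtain ⟨w, hw1, hw2, hw3⟩ := upper3 k hk3
      simp only [if_neg h2, if_true]
      exact ⟨isLeast_of ⟨_, ⟨w, hw2, rfl⟩, hw3⟩ (by
          rintro x ⟨w', h1, rfl⟩; exact lower3 k hk3 w' h1),
        isLeast_of ⟨_, ⟨w, hw1, hw2, rfl⟩, hw3⟩ (by
          rintro x ⟨w', _, h1, rfl⟩; exact lower3 k hk3 w' h1)⟩
    · have hℓ4 : 4 ≤ ℓ := by omega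
      have hk2 : 2 ≤ k := by omega
      simp only [if_neg h2, if_neg h3]
      constructor
      · apply isLeast_of
        · obtain ⟨w, hw1, hw2, _⟩ := upper4 ℓ hℓ4 k hk2 (fun _ => 3) (fun _ => le_refl _)
            (fun _ => by omega) ((Finset.range 4).image (gl ℓ hℓ4)) (by
              intro n c hc
              apply Finset.mem_image_of_mem
              rw [Finset.mem_range]
              rcases lb_mem _ n c hc with h | ⟨m, _, h⟩ <;> omega)
          refine ⟨_, ⟨w, hw1, rfl⟩, hw2.trans ?_⟩
          have : ((Finset.range 4).image (gl ℓ hℓ4)).card ≤ 4 :=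
            Finset.card_image_le.trans (by simp)
          have h5 : ((Finset.range 4).image (gl ℓ hℓ4)).card + 1 ≤ 5 := by omega
          exact_mod_cast h5
        · rintro x ⟨w', h1, rfl⟩
          exact lower4 k hk2 w' h1
      · apply isLeast_of
        · obtain ⟨w, hw1, hw2, hw3⟩ := upper4 ℓ hℓ4 k hk2 (fun n => 3 + n % (ℓ - 3))
            (fun _ => by omega) (fun n => by
              have := Nat.mod_lt n (show 0 < ℓ - 3 by omega)
              omega) Finset.univ (fun _ _ _ => Finset.mem_univ _)
          refine ⟨_, ⟨w, ?_, hw1, rfl⟩, hw2.trans ?_⟩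
          · intro c
            have hc := c.isLt
            have hgl : gl ℓ hℓ4 c.val = c := by
              ext
              simp only [gl]
              exact Nat.mod_eq_of_lt hc
            by_cases hc3 : c.val < 3
            · have := hw3 0 c.val (by
                simp only [lb, EE, List.map_cons, List.map_nil, List.mem_cons,
                  List.not_mem_nil, or_false]
                omega)
              rwa [hgl] at this
            · have := hw3 (c.val - 3 + 1) c.val (by
                have h6 := lab_mem_lb (fun n => 3 + n % (ℓ - 3)) (c.val - 3)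
                have h7 : 3 + (c.val - 3) % (ℓ - 3) = c.val := by
                  rw [Nat.mod_eq_of_lt (by omega)]
                  omega
                simp only [h7] at h6
                exact h6)
              rwa [hgl] at this
          · rw [Finset.card_univ, Fintype.card_fin]
            exact_mod_cast le_refl _
        · rintro x ⟨w', h0, h1, rfl⟩
          have := encard_range_le w' k (by omega)
          rw [h0.range_eq, Set.encard_univ, ENat.card_eq_coe_fintype_card, Fintype.card_fin] at this
          exact this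

end Pool.Agent.H.MP_d67245_co
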