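import Pool.Agent.H.MP_d67245_co.Defs

set_option autoImplicit false

namespace Pool.Agent.H.MP_d67245_co

variable {α : Type} [DecidableEq α]

theorem occ_nil (t : List α) : occ t [] = if t = [] then 1 else 0 := by
  unfold occ
  by_cases h : t = []
  · subst h; simp
  · simp [h]

theorem occ_cons (t u : List α) (x : α) :
    occ t (x :: u) = (if t <+: x :: u then 1 else 0) + occ t u := by
  unfold occ
  rw [List.tails_cons, List.countP_cons]
  by_cases h : t <+: x :: u
  · simp [h, add_comm]
  · simp [h]

theorem occ_concat (t u : List α) (x : α) :
    occ t (u ++ [x]) = occ t u + (if t <:+ u ++ [x] then 1 else 0) := by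
  induction u with
  | nil =>
    rw [List.nil_append, occ_cons, occ_nil]
    have : (t <+: [x]) ↔ (t <:+ [x]) := by
      constructor
      · intro h
        rcases t with _ | ⟨y, t⟩
        · exact List.nil_suffix
        · rw [List.cons_prefix_cons] at h
          obtain ⟨rfl, h⟩ := h
          rw [List.prefix_nil] at h
          subst h
          exact List.suffix_refl _
      · intro h
        rcases t with _ | ⟨y, t⟩
        · exact List.nil_prefix
        · have hl := h.length_le
          simp at hl
          subst hl
          have := h.eq_of_length (by simp)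
          rw [this]
    by_cases h : t <+: [x]
    · have h2 := this.mp h
      simp [h, h2, add_comm]
    · have h2 : ¬ t <:+ [x] := fun h' => h (this.mpr h')
      simp [h, h2]
  | cons y u ih =>
    rw [List.cons_append, occ_cons, ih, occ_cons]
    have key : (if t <+: y :: (u ++ [x]) then 1 else 0) + (if t <:+ u ++ [x] then 1 else 0)
        = (if t <+: y :: u then 1 else 0) + (if t <:+ y :: (u ++ [x]) then 1 else 0) := by
      rcases Nat.lt_or_ge (u.length + 1) t.length with hlt | hle
      · -- long `t`
        have h1 : ¬ t <:+ u ++ [x] := fun h => by
          have := h.length_le; simp at this; omega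
        have h2 : ¬ t <+: y :: u := fun h => by
          have := h.length_le; simp at this; omega
        have h3 : (t <+: y :: (u ++ [x])) ↔ (t <:+ y :: (u ++ [x])) := by
          constructor
          · intro h
            have hl := h.length_le
            simp at hl
            rw [h.eq_of_length (by simp; omega)]
          · intro h
            have hl := h.length_le
            simp at hl
            rw [h.eq_of_length (by simp; omega)]
        by_cases h : t <+: y :: (u ++ [x])
        · have := h3.mp h
          simp [h, this, h1, h2]
        · have : ¬ t <:+ y :: (u ++ [x]) := fun h' => h (h3.mpr h')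
          simp [h, this, h1, h2]
      · have h1 : (t <+: y :: (u ++ [x])) ↔ (t <+: y :: u) := by
          constructor
          · intro h
            have h' : (y :: u) <+: y :: (u ++ [x]) := ⟨[x], by simp⟩
            exact List.prefix_of_prefix_length_le h h' (by simpa using hle)
          · intro h
            exact h.trans ⟨[x], by simp⟩
        have h2 : (t <:+ y :: (u ++ [x])) ↔ (t <:+ u ++ [x]) := by
          constructor
          · intro h
            exact List.suffix_of_suffix_length_le h (List.suffix_cons _ _) (by simpa using hle)
          · intro h
            exact h.trans (List.suffix_cons _ _)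
        simp only [h1, h2]
    omega

theorem occ_reverse (t u : List α) : occ t.reverse u.reverse = occ t u := by
  induction u with
  | nil => simp [occ_nil]
  | cons x u ih =>
    rw [List.reverse_cons, occ_concat, ih, occ_cons]
    have : (t.reverse <:+ u.reverse ++ [x]) ↔ (t <+: x :: u) := by
      rw [← List.reverse_cons, List.reverse_suffix]
    simp only [this]
    omega

theorem occ_reverse_right (t u : List α) : occ t u.reverse = occ t.reverse u := by
  have := occ_reverse t.reverse u
  rwa [List.reverse_reverse] at this

theorem KPal.occ_eq {k : ℕ} {v : List α} (h : KPal k v) (t : List α) (ht : t.length ≤ k) :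
    occ t v = occ t.reverse v := by
  rw [h t ht, occ_reverse_right]

theorem occ_eq_zero_of_length_lt {t u : List α} (h : u.length < t.length) : occ t u = 0 := by
  induction u with
  | nil =>
    rw [occ_nil, if_neg]
    rintro rfl
    simp at h
  | cons x u ih =>
    simp only [List.length_cons] at h
    rw [occ_cons, ih (by omega), if_neg]
    intro h'
    have := h'.length_le
    simp at this
    omega

theorem occ_self (u : List α) (hu : u ≠ []) : occ u u = 1 := by
  rcases u with _ | ⟨x, u⟩
  · exact absurd rfl hu
  · rw [occ_cons, if_pos (List.prefix_refl _), occ_eq_zero_of_length_lt (by simp)]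

theorem isInfix_of_occ_ne_zero {t u : List α} (h : occ t u ≠ 0) : t <:+: u := by
  induction u with
  | nil =>
    rw [occ_nil] at h
    by_cases ht : t = []
    · subst ht; exact List.infix_refl _
    · simp [ht] at h
  | cons x u ih =>
    rw [occ_cons] at h
    by_cases hp : t <+: x :: u
    · exact hp.isInfix
    · rw [if_neg hp, zero_add] at h
      exact (ih h).trans (List.suffix_cons _ _).isInfix

theorem occ_nil_left (u : List α) : occ [] u = u.length + 1 := by
  induction u with
  | nil => simp [occ_nil]
  | cons x u ih => rw [occ_cons, ih]; simp; omega

theorem KEquiv.length_eq {k : ℕ} {u v : List α} (h : KEquiv k u v) : u.length = v.length := by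
  have := h [] (by simp)
  rw [occ_nil_left, occ_nil_left] at this
  omega

theorem KEquiv.eq_of_length_le {k : ℕ} {u v : List α} (h : KEquiv k u v) (hu : u.length ≤ k) :
    u = v := by
  by_cases hne : u = []
  · subst hne
    have := h.length_eq
    exact (List.length_eq_zero_iff.mp this.symm).symm
  · have h1 := h u hu
    rw [occ_self u hne] at h1
    have h2 : u <:+: v := isInfix_of_occ_ne_zero (by omega)
    exact h2.eq_of_length h.length_eq

theorem occ_eq_prefix_add [Fintype α] (t u : List α) :
    occ t u = (if t <+: u then 1 else 0) + ∑ c : α, occ (c :: t) u := by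
  induction u with
  | nil =>
    simp only [occ_nil]
    by_cases h : t = []
    · subst h; simp
    · simp [h]
  | cons x u ih =>
    rw [occ_cons, ih]
    have h1 : ∀ c : α, occ (c :: t) (x :: u) =
        (if c = x ∧ t <+: u then 1 else 0) + occ (c :: t) u := by
      intro c
      rw [occ_cons]
      simp only [List.cons_prefix_cons]
    simp only [h1, Finset.sum_add_distrib]
    have h2 : ∑ c : α, (if c = x ∧ t <+: u then 1 else 0) = if t <+: u then 1 else 0 := by
      by_cases h : t <+: u
      · simp [h]
      · simp [h]
    rw [h2]

theorem KEquiv.prefix_iff [Fintype α] {k : ℕ} {u v : List α} (h : KEquiv k u v) {t : List α}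
    (ht : t.length + 1 ≤ k) : t <+: u ↔ t <+: v := by
  have h1 := occ_eq_prefix_add t u
  have h2 := occ_eq_prefix_add t v
  have h3 : ∑ c : α, occ (c :: t) u = ∑ c : α, occ (c :: t) v :=
    Finset.sum_congr rfl (fun c _ => h (c :: t) (by simpa using ht))
  have h4 := h t (by omega)
  by_cases hu : t <+: u <;> by_cases hv : t <+: v <;> simp [hu, hv] at h1 h2 ⊢ <;> omega

theorem KEquiv.take_eq [Fintype α] {k : ℕ} {u v : List α} (h : KEquiv (k + 1) u v) :
    u.take k = v.take k := by
  have hl := h.length_eq
  have h1 : u.take k <+: v := (h.prefix_iff (by simp)).mp (List.take_prefix _ _)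
  have h2 := List.prefix_iff_eq_take.mp h1
  rw [h2, List.length_take, hl]
  rcases Nat.le_total k v.length with hle | hle
  · rw [Nat.min_eq_left hle]
  · rw [Nat.min_eq_right hle, List.take_of_length_le hle, List.take_of_length_le (Nat.le_refl _)]

theorem KPal.take_eq [Fintype α] {k : ℕ} {v : List α} (h : KPal (k + 1) v) :
    v.take k = v.reverse.take k := KEquiv.take_eq h

theorem KEquiv.mono {k k' : ℕ} (hk : k ≤ k') {u v : List α} (h : KEquiv k' u v) : KEquiv k u v :=
  fun t ht => h t (ht.trans hk)

theorem KPal.mono {k k' : ℕ} (hk : k ≤ k') {v : List α} (h : KPal k' v) : KPal k v :=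
  KEquiv.mono hk h

/-- short `k`-palindromes are palindromes -/
theorem KPal.reverse_eq [Fintype α] {k : ℕ} {v : List α} (h : KPal (k + 1) v)
    (hv : v.length ≤ 2 * k + 1) : v.reverse = v := by
  have h1 := h.take_eq
  apply List.ext_getElem (by simp)
  intro i hi1 hi2
  have hi : i < v.length := hi2
  -- symmetric pairs
  have key : ∀ j, j < k → ∀ (h1' : j < v.length), v[j] = v.reverse[j]'(by simpa using h1') := by
    intro j hj hjl
    have := congrArg (fun l => l[j]?) h1
    simp only [List.getElem?_take, hj, if_true] at this
    rw [List.getElem?_eq_getElem hjl, List.getElem?_eq_getElem (by simpa using hjl)] at this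
    exact Option.some.inj this
  rcases Nat.lt_or_ge i k with hik | hik
  · exact (key i hik hi).symm
  · rw [List.getElem_reverse]
    rcases Nat.lt_or_ge (v.length - 1 - i) k with h3 | h3
    · have := key (v.length - 1 - i) h3 (by omega)
      rw [List.getElem_reverse] at this
      rw [this]
      congr 1
      omega
    · congr 1
      omega

theorem kPal_of_reverse_eq {k : ℕ} {v : List α} (h : v.reverse = v) : KPal k v := by
  unfold KPal
  rw [h]
  intro t _
  rfl

end Pool.Agent.H.MP_d67245_co
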