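import Mathlib

/-!
# A self-avoiding walk whose word is closed under reversal

Nodes are triples `(x, y, c)`: the label `c = 0` is a vertex `P` of the hexagonal lattice, `c = 1` a
vertex `Q`, `c = 2` (the midpoint of) an edge from `P (x, y)` to `Q (x + 1, y)` and a label `c ≥ 3`
(the midpoint of) an edge from `P (x, y)` to `Q (x, y + 1)`. The vertices `P (x, y)` and `Q (x, y)`
are adjacent.
-/

set_option autoImplicit false

namespace Pool.Agent.H.MP_d67245_co

/-- nodes -/
abbrev Nd := ℤ × ℤ × ℕ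

/-- half of the adjacency relation -/
def Hf (a b : Nd) : Prop :=
  (a.2.2 = 0 ∧ b.2.2 = 1 ∧ b.1 = a.1 ∧ b.2.1 = a.2.1) ∨
  (a.2.2 = 0 ∧ b.2.2 = 2 ∧ b.1 = a.1 ∧ b.2.1 = a.2.1) ∨
  (a.2.2 = 2 ∧ b.2.2 = 1 ∧ b.1 = a.1 + 1 ∧ b.2.1 = a.2.1) ∨
  (a.2.2 = 0 ∧ 3 ≤ b.2.2 ∧ b.1 = a.1 ∧ b.2.1 = a.2.1) ∨
  (3 ≤ a.2.2 ∧ b.2.2 = 1 ∧ b.1 = a.1 ∧ b.2.1 = a.2.1 + 1)

/-- the adjacency relation -/
def St (a b : Nd) : Prop := Hf a b ∨ Hf b a

theorem St.symm {a b : Nd} (h : St a b) : St b a := Or.symm h

/-- horizontal translation -/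
def Tr (d : ℤ) (a : Nd) : Nd := (a.1 + d, a.2.1, a.2.2)

theorem Hf.tr {a b : Nd} (d : ℤ) (h : Hf a b) : Hf (Tr d a) (Tr d b) := by
  obtain ⟨x, y, c⟩ := a
  obtain ⟨x', y', c'⟩ := b
  simp only [Hf, Tr] at *
  rcases h with ⟨h1, h2, h3, h4⟩ | ⟨h1, h2, h3, h4⟩ | ⟨h1, h2, h3, h4⟩ | ⟨h1, h2, h3, h4⟩ |
    ⟨h1, h2, h3, h4⟩
  · exact Or.inl ⟨h1, h2, by omega, h4⟩
  · exact Or.inr (Or.inl ⟨h1, h2, by omega, h4⟩)
  · exact Or.inr (Or.inr (Or.inl ⟨h1, h2, by omega, h4⟩))
  · exact Or.inr (Or.inr (Or.inr (Or.inl ⟨h1, h2, by omega, h4⟩)))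
  · exact Or.inr (Or.inr (Or.inr (Or.inr ⟨h1, h2, by omega, h4⟩)))

theorem St.tr {a b : Nd} (d : ℤ) (h : St a b) : St (Tr d a) (Tr d b) :=
  h.imp (Hf.tr d) (Hf.tr d)

/-- concatenation of blocks -/
def it (f : ℕ → List Nd) : ℕ → List Nd
  | 0 => []
  | n + 1 => it f n ++ f n

theorem mem_it (f : ℕ → List Nd) (n : ℕ) (v : Nd) : v ∈ it f n ↔ ∃ j, j < n ∧ v ∈ f j := by
  induction n with
  | zero => simp [it]
  | succ n ih =>
    simp only [it, List.mem_append, ih]
    constructor
    · rintro (⟨j, h1, h2⟩ | h)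
      · exact ⟨j, by omega, h2⟩
      · exact ⟨n, by omega, h⟩
    · rintro ⟨j, h1, h2⟩
      rcases Nat.lt_or_ge j n with h | h
      · exact Or.inl ⟨j, h, h2⟩
      · have : j = n := by omega
        subst this
        exact Or.inr h2

theorem nodup_it (f : ℕ → List Nd) (h1 : ∀ j, (f j).Nodup)
    (h2 : ∀ i j, i < j → ∀ v ∈ f i, v ∉ f j) (n : ℕ) : (it f n).Nodup := by
  induction n with
  | zero => simp [it]
  | succ n ih =>
    simp only [it]
    rw [List.nodup_append']
    refine ⟨ih, h1 n, ?_⟩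
    intro v hv hv'
    obtain ⟨j, hj, hvj⟩ := (mem_it f n v).mp hv
    exact h2 j n hj v hvj hv'

theorem chain_it (f : ℕ → List Nd) (p : ℕ → Nd) (h1 : ∀ j, (p j :: f j).IsChain St)
    (h2 : ∀ j, (f j).getLast? = some (p (j + 1))) (n : ℕ) :
    (p 0 :: it f n).IsChain St ∧ (p 0 :: it f n).getLast? = some (p n) := by
  induction n with
  | zero => simp [it]
  | succ n ih =>
    obtain ⟨ih1, ih2⟩ := ih
    have e : p 0 :: it f (n + 1) = (p 0 :: it f n) ++ f n := rfl
    have h3 := h1 n
    rw [List.isChain_cons] at h3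
    constructor
    · rw [e, List.isChain_append]
      refine ⟨ih1, h3.2, ?_⟩
      intro x hx y hy
      rw [ih2] at hx
      have : p n = x := by simpa using hx
      subst this
      exact h3.1 y hy
    · rw [e, List.getLast?_append, h2 n]
      rfl

/-- vertical blocks, upwards -/
def blkU (l : ℕ) (x : ℤ) (j : ℕ) : List Nd := [(x, j, l), (x, j + 1, 1), (x, j + 1, 0)]
/-- vertical blocks, downwards -/
def blkD (l : ℕ) (x : ℤ) (j : ℕ) : List Nd := [(x, -j, 1), (x, -j - 1, l), (x, -j - 1, 0)]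
/-- horizontal blocks -/
def blkR (x y : ℤ) (i : ℕ) : List Nd := [(x + i, y, 2), (x + i + 1, y, 1), (x + i + 1, y, 0)]

/-- vertical segment -/
def sA (s : Bool) (l : ℕ) (x : ℤ) (h : ℕ) : List Nd :=
  if s then it (blkU l x) h else it (blkD l x) h

/-- horizontal segment, of length `a + 1`, at height `± h` -/
def sB (s : Bool) (x : ℤ) (h a : ℕ) : List Nd :=
  if s then it (blkR x h) a ++ [(x + a, (h : ℤ), 2)] else it (blkR x (-h)) (a + 1)

/-- vertical segment without its last vertex -/
def sC (s : Bool) (l : ℕ) (x : ℤ) (n : ℕ) : List Nd :=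
  sA s l x n ++ if s then [(x, (n : ℤ), l), (x, (n : ℤ) + 1, 1)]
    else [(x, -(n : ℤ), 1), (x, -(n : ℤ) - 1, l)]

theorem mem_sA_up (l : ℕ) (hl : 3 ≤ l) (x : ℤ) (h : ℕ) (v : Nd) (hv : v ∈ sA true l x h) :
    v.1 = x ∧ 0 ≤ v.2.1 ∧ v.2.1 ≤ h ∧ (1 ≤ v.2.1 ∨ 3 ≤ v.2.2) ∧ v.2.2 ≠ 2 ∧
      (v.2.1 = h → v.2.2 < 2) := by
  simp only [sA, if_true, mem_it, blkU, List.mem_cons, List.not_mem_nil, or_false] at hv
  obtain ⟨j, hj, rfl | rfl | rfl⟩ := hv <;> refine ⟨rfl, ?_, ?_, ?_, ?_, ?_⟩ <;>
    dsimp only <;> omega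

theorem mem_sA_down (l : ℕ) (hl : 3 ≤ l) (x : ℤ) (h : ℕ) (v : Nd) (hv : v ∈ sA false l x h) :
    v.1 = x ∧ v.2.1 ≤ 0 ∧ -(h : ℤ) ≤ v.2.1 ∧ (v.2.1 ≤ -1 ∨ v.2.2 = 1) ∧ v.2.2 ≠ 2 ∧
      (v.2.1 = -h → v.2.2 ≠ 1) := by
  simp only [sA, Bool.false_eq_true, if_false, mem_it, blkD, List.mem_cons, List.not_mem_nil,
    or_false] at hv
  obtain ⟨j, hj, rfl | rfl | rfl⟩ := hv <;> refine ⟨rfl, ?_, ?_, ?_, ?_, ?_⟩ <;>
    dsimp only <;> omega

theorem mem_sB_up (x : ℤ) (h a : ℕ) (v : Nd) (hv : v ∈ sB true x h a) :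
    v.2.1 = h ∧ x ≤ v.1 ∧ v.1 ≤ x + a ∧ (v.1 = x → v.2.2 = 2) := by
  simp only [sB, if_true, List.mem_append, mem_it, blkR, List.mem_cons, List.not_mem_nil,
    or_false] at hv
  rcases hv with ⟨j, hj, rfl | rfl | rfl⟩ | rfl <;> refine ⟨rfl, ?_, ?_, ?_⟩ <;>
    dsimp only <;> omega

theorem mem_sB_down (x : ℤ) (h a : ℕ) (v : Nd) (hv : v ∈ sB false x h a) :
    v.2.1 = -h ∧ x ≤ v.1 ∧ v.1 ≤ x + a + 1 ∧ (v.1 = x → v.2.2 = 2) ∧
      (v.1 = x + a + 1 → v.2.2 ≤ 1) := by
  simp only [sB, Bool.false_eq_true, if_false, mem_it, blkR, List.mem_cons, List.not_mem_nil,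
    or_false] at hv
  obtain ⟨j, hj, rfl | rfl | rfl⟩ := hv <;> refine ⟨rfl, ?_, ?_, ?_, ?_⟩ <;>
    dsimp only <;> omega

theorem mem_sC_up (l : ℕ) (hl : 3 ≤ l) (x : ℤ) (n : ℕ) (v : Nd) (hv : v ∈ sC true l x n) :
    v.1 = x ∧ 0 ≤ v.2.1 ∧ v.2.1 ≤ n + 1 ∧ (1 ≤ v.2.1 ∨ 3 ≤ v.2.2) := by
  simp only [sC, if_true, List.mem_append, List.mem_cons, List.not_mem_nil, or_false] at hv
  rcases hv with hv | rfl | rfl
  · obtain ⟨h1, h2, h3, h4, _⟩ := mem_sA_up l hl x n v hv
    exact ⟨h1, h2, by omega, h4⟩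
  · refine ⟨rfl, ?_, ?_, ?_⟩ <;> dsimp only <;> omega
  · refine ⟨rfl, ?_, ?_, ?_⟩ <;> dsimp only <;> omega

theorem mem_sC_down (l : ℕ) (hl : 3 ≤ l) (x : ℤ) (n : ℕ) (v : Nd) (hv : v ∈ sC false l x n) :
    v.1 = x ∧ v.2.1 ≤ 0 ∧ -((n : ℤ) + 1) ≤ v.2.1 ∧ (v.2.1 ≤ -1 ∨ v.2.2 = 1) ∧
      (v.2.1 = -((n : ℤ) + 1) → 3 ≤ v.2.2) := by
  simp only [sC, Bool.false_eq_true, if_false, List.mem_append, List.mem_cons, List.not_mem_nil,
    or_false] at hv
  rcases hv with hv | rfl | rfl
  · obtain ⟨h1, h2, h3, h4, _⟩ := mem_sA_down l hl x n v hv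
    exact ⟨h1, h2, by omega, h4, by omega⟩
  · refine ⟨rfl, ?_, ?_, ?_, ?_⟩ <;> dsimp only <;> omega
  · refine ⟨rfl, ?_, ?_, ?_, ?_⟩ <;> dsimp only <;> omega

theorem nodup_sA (s : Bool) (l : ℕ) (hl : 3 ≤ l) (x : ℤ) (h : ℕ) : (sA s l x h).Nodup := by
  cases s
  · simp only [sA, Bool.false_eq_true, if_false]
    apply nodup_it
    · intro j
      simp only [blkD, List.nodup_cons, List.mem_cons, List.not_mem_nil, or_false, Prod.mk.injEq,
        not_or, List.nodup_nil, and_true, not_false_eq_true]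
      omega
    · intro i j hij v hv
      simp only [blkD, List.mem_cons, List.not_mem_nil, or_false] at hv ⊢
      rcases hv with rfl | rfl | rfl <;> simp only [Prod.mk.injEq, not_or] <;> omega
  · simp only [sA, if_true]
    apply nodup_it
    · intro j
      simp only [blkU, List.nodup_cons, List.mem_cons, List.not_mem_nil, or_false, Prod.mk.injEq,
        not_or, List.nodup_nil, and_true, not_false_eq_true]
      omega
    · intro i j hij v hv
      simp only [blkU, List.mem_cons, List.not_mem_nil, or_false] at hv ⊢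
      rcases hv with rfl | rfl | rfl <;> simp only [Prod.mk.injEq, not_or] <;> omega

theorem nodup_blkR (x y : ℤ) (n : ℕ) : (it (blkR x y) n).Nodup := by
  apply nodup_it
  · intro j
    simp only [blkR, List.nodup_cons, List.mem_cons, List.not_mem_nil, or_false, Prod.mk.injEq,
      not_or, List.nodup_nil, and_true, not_false_eq_true]
    omega
  · intro i j hij v hv
    simp only [blkR, List.mem_cons, List.not_mem_nil, or_false] at hv ⊢
    rcases hv with rfl | rfl | rfl <;> simp only [Prod.mk.injEq, not_or] <;> omega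

theorem nodup_sB (s : Bool) (x : ℤ) (h a : ℕ) : (sB s x h a).Nodup := by
  cases s
  · simp only [sB, Bool.false_eq_true, if_false]
    exact nodup_blkR _ _ _
  · simp only [sB, if_true]
    rw [List.nodup_append']
    refine ⟨nodup_blkR _ _ _, by simp, ?_⟩
    intro v hv hv'
    simp only [mem_it, blkR, List.mem_cons, List.not_mem_nil, or_false] at hv hv'
    subst hv'
    obtain ⟨j, hj, h | h | h⟩ := hv <;> simp only [Prod.mk.injEq] at h <;> omega

theorem nodup_sC (s : Bool) (l : ℕ) (hl : 3 ≤ l) (x : ℤ) (n : ℕ) : (sC s l x n).Nodup := by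
  simp only [sC]
  rw [List.nodup_append']
  refine ⟨nodup_sA s l hl x n, ?_, ?_⟩
  · cases s
    · simp only [Bool.false_eq_true, if_false, List.nodup_cons, List.mem_cons, List.not_mem_nil,
        or_false, Prod.mk.injEq, List.nodup_nil, and_true, not_false_eq_true]
      omega
    · simp only [if_true, List.nodup_cons, List.mem_cons, List.not_mem_nil,
        or_false, Prod.mk.injEq, List.nodup_nil, and_true, not_false_eq_true]
      omega
  · intro v hv hv'
    cases s
    · obtain ⟨h1, h2, h3, h4, h5, h6⟩ := mem_sA_down l hl x n v hv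
      simp only [Bool.false_eq_true, if_false, List.mem_cons, List.not_mem_nil, or_false] at hv'
      rcases hv' with rfl | rfl
      · dsimp only at h6; omega
      · dsimp only at h3; omega
    · obtain ⟨h1, h2, h3, h4, h5, h6⟩ := mem_sA_up l hl x n v hv
      simp only [if_true, List.mem_cons, List.not_mem_nil, or_false] at hv'
      rcases hv' with rfl | rfl
      · dsimp only at h6; omega
      · dsimp only at h3; omega

theorem chain_sA (s : Bool) (l : ℕ) (hl : 3 ≤ l) (x : ℤ) (h : ℕ) :
    ((x, (0 : ℤ), 0) :: sA s l x h).IsChain St ∧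
    ((x, (0 : ℤ), 0) :: sA s l x h).getLast? =
      some (x, (if s then (h : ℤ) else -(h : ℤ)), 0) := by
  cases s
  · simp only [sA, Bool.false_eq_true, if_false]
    have := chain_it (blkD l x) (fun j => (x, -(j : ℤ), 0)) (by
      intro j
      simp [blkD, St, Hf]
      omega) (by intro j; simp [blkD]; ring) h
    simpa using this
  · simp only [sA, if_true]
    have := chain_it (blkU l x) (fun j => (x, (j : ℤ), 0)) (by
      intro j
      simp [blkU, St, Hf]
      omega) (by intro j; simp [blkU]) h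
    simpa using this

theorem chain_blkR (x y : ℤ) (n : ℕ) :
    ((x, y, 0) :: it (blkR x y) n).IsChain St ∧
    ((x, y, 0) :: it (blkR x y) n).getLast? = some (x + n, y, 0) := by
  have := chain_it (blkR x y) (fun j => (x + (j : ℤ), y, 0)) (by
      intro j
      simp [blkR, St, Hf]) (by intro j; simp [blkR]; ring) n
  simpa using this

theorem chain_sB (s : Bool) (x : ℤ) (h a : ℕ) :
    ((x, (if s then (h : ℤ) else -(h : ℤ)), 0) :: sB s x h a).IsChain St ∧
    ((x, (if s then (h : ℤ) else -(h : ℤ)), 0) :: sB s x h a).getLast? =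
      some (if s then (x + a, (h : ℤ), 2) else (x + a + 1, -(h : ℤ), 0)) := by
  cases s
  · simp only [sB, Bool.false_eq_true, if_false]
    have := chain_blkR x (-h) (a + 1)
    refine ⟨this.1, ?_⟩
    rw [this.2]
    push_cast
    ring_nf
  · simp only [sB, if_true]
    have := chain_blkR x h a
    rw [← List.cons_append]
    constructor
    · rw [List.isChain_append]
      refine ⟨this.1, by simp, ?_⟩
      intro u hu v hv
      rw [this.2] at hu
      simp only [Option.mem_def, Option.some.injEq] at hu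
      simp only [List.head?_cons, Option.mem_def, Option.some.injEq] at hv
      subst hu hv
      simp [St, Hf]
    · rw [List.getLast?_append]
      simp

theorem chain_sC (s : Bool) (l : ℕ) (hl : 3 ≤ l) (x : ℤ) (n : ℕ) :
    ((x, (0 : ℤ), 0) :: sC s l x n).IsChain St ∧
    ((x, (0 : ℤ), 0) :: sC s l x n).getLast? =
      some (if s then (x, (n : ℤ) + 1, 1) else (x, -(n : ℤ) - 1, l)) := by
  have h := chain_sA s l hl x n
  simp only [sC]
  rw [← List.cons_append]
  constructor
  · rw [List.isChain_append]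
    refine ⟨h.1, ?_, ?_⟩
    · cases s
      · simp [St, Hf]
        omega
      · simp [St, Hf]
        omega
    · intro u hu v hv
      rw [h.2] at hu
      simp only [Option.mem_def, Option.some.injEq] at hu
      cases s
      · simp only [Bool.false_eq_true, if_false, List.head?_cons, Option.mem_def,
          Option.some.injEq] at hv hu
        subst hu hv
        simp [St, Hf]
      · simp only [if_true, List.head?_cons, Option.mem_def, Option.some.injEq] at hv hu
        subst hu hv
        simp [St, Hf]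
        omega
  · rw [List.getLast?_append]
    cases s <;> simp

/-- one step of the recursive construction -/
def stepE (s : Bool) (l : ℕ) (y n : ℕ) (e : List Nd) : List Nd :=
  (e ++ sA s l y (n + 1) ++ sB s y (n + 1) (2 * y - 1)) ++
    (e.map (Tr (2 * y)) ++ sC s l (y + 2 * y) n).reverse

/-- the invariant of the construction -/
structure Inv (s : Bool) (y n : ℕ) (e : List Nd) : Prop where
  ypos : 1 ≤ y
  nodup : e.Nodup
  x0 : ∀ v ∈ e, 0 ≤ v.1
  x1 : ∀ v ∈ e, v.1 < 2 * y
  y0 : ∀ v ∈ e, -(n : ℤ) ≤ v.2.1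
  y1 : ∀ v ∈ e, v.2.1 ≤ n
  left : ∀ v ∈ e, v.1 = 0 → v.2.1 = 0 ∧ (v.2.2 = 0 ∨ v.2.2 = 2)
  exit : ∀ v ∈ e, v.1 = y → if s then v.2.1 < 0 ∨ (v.2.1 = 0 ∧ v.2.2 < 3)
    else 0 < v.2.1 ∨ (v.2.1 = 0 ∧ v.2.2 ≠ 1)
  chain : e.IsChain St
  last : e.getLast? = some ((y : ℤ), (0 : ℤ), 0)
  head : e.head? = some ((0 : ℤ), (0 : ℤ), 0)

theorem Inv.step {s : Bool} {l y n : ℕ} {e : List Nd} (hl : 3 ≤ l) (h : Inv s y n e) :
    Inv (!s) (2 * y) (n + 1) (stepE s l y n e) := by
  have hy := h.ypos
  have hmemT : ∀ v, v ∈ e.map (Tr (2 * y)) → ∃ u ∈ e, v.1 = u.1 + 2 * y ∧ v.2.1 = u.2.1 ∧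
      v.2.2 = u.2.2 := by
    intro v hv
    obtain ⟨u, hu, rfl⟩ := List.mem_map.mp hv
    exact ⟨u, hu, rfl, rfl, rfl⟩
  have hmem : ∀ v, v ∈ stepE s l y n e ↔ v ∈ e ∨ v ∈ sA s l y (n + 1) ∨
      v ∈ sB s y (n + 1) (2 * y - 1) ∨ v ∈ e.map (Tr (2 * y)) ∨ v ∈ sC s l (y + 2 * y) n := by
    intro v
    simp only [stepE, List.mem_append, List.mem_reverse]
    tauto
  have hcast : ((2 * y - 1 : ℕ) : ℤ) = 2 * y - 1 := by omega
  -- lists `X1` and `X2`
  have hnodup : (stepE s l y n e).Nodup := by
    simp only [stepE]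
    rw [List.nodup_append', List.nodup_append', List.nodup_append', List.nodup_reverse,
      List.nodup_append']
    refine ⟨⟨⟨h.nodup, nodup_sA s l hl _ _, ?_⟩, nodup_sB _ _ _ _, ?_⟩, ⟨?_, nodup_sC s l hl _ _,
      ?_⟩, ?_⟩
    · -- e vs A
      intro v hv hv'
      have h1 := h.exit v hv
      have h2 := h.y1 v hv
      have h3 := h.y0 v hv
      cases s
      · obtain ⟨a1, a2, a3, a4, a5, a6⟩ := mem_sA_down l hl _ _ v hv'
        simp only [Bool.false_eq_true, if_false] at h1
        have := h1 a1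
        omega
      · obtain ⟨a1, a2, a3, a4, a5, a6⟩ := mem_sA_up l hl _ _ v hv'
        simp only [if_true] at h1
        have := h1 a1
        omega
    · -- (e ++ A) vs B
      intro v hv hv'
      have hv2 := List.mem_append.mp hv
      cases s
      · obtain ⟨b1, b2, b3, b4, b5⟩ := mem_sB_down _ _ _ v hv'
        rcases hv2 with hv2 | hv2
        · have := h.y0 v hv2
          push_cast at b1
          omega
        · obtain ⟨a1, a2, a3, a4, a5, a6⟩ := mem_sA_down l hl _ _ v hv2
          exact a5 (b4 a1)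
      · obtain ⟨b1, b2, b3, b4⟩ := mem_sB_up _ _ _ v hv'
        rcases hv2 with hv2 | hv2
        · have := h.y1 v hv2
          push_cast at b1
          omega
        · obtain ⟨a1, a2, a3, a4, a5, a6⟩ := mem_sA_up l hl _ _ v hv2
          exact a5 (b4 a1)
    · -- T e nodup
      apply h.nodup.map
      intro a b hab
      simp only [Tr, Prod.mk.injEq] at hab
      ext
      · omega
      · exact hab.2.1
      · exact hab.2.2
    · -- T e vs C
      intro v hv hv'
      obtain ⟨u, hu, e1, e2, e3⟩ := hmemT v hv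
      have h1 := h.exit u hu
      cases s
      · obtain ⟨c1, c2, c3, c4, c5⟩ := mem_sC_down l hl _ _ v hv'
        simp only [Bool.false_eq_true, if_false] at h1
        have := h1 (by omega)
        omega
      · obtain ⟨c1, c2, c3, c4⟩ := mem_sC_up l hl _ _ v hv'
        simp only [if_true] at h1
        have := h1 (by omega)
        omega
    · -- X1 vs X2
      intro v hv hv'
      rw [List.mem_reverse, List.mem_append] at hv'
      rw [List.mem_append, List.mem_append] at hv
      rcases hv' with hv' | hv'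
      · obtain ⟨u, hu, e1, e2, e3⟩ := hmemT v hv'
        have u0 := h.x0 u hu
        have u1 := h.y0 u hu
        have u2 := h.y1 u hu
        rcases hv with (hv | hv) | hv
        · have := h.x1 v hv
          omega
        · cases s
          · obtain ⟨a1, _⟩ := mem_sA_down l hl _ _ v hv
            omega
          · obtain ⟨a1, _⟩ := mem_sA_up l hl _ _ v hv
            omega
        · cases s
          · obtain ⟨b1, b2, b3, b4, b5⟩ := mem_sB_down _ _ _ v hv
            push_cast at b1
            omega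
          · obtain ⟨b1, b2, b3, b4⟩ := mem_sB_up _ _ _ v hv
            push_cast at b1
            omega
      · cases s
        · obtain ⟨c1, c2, c3, c4, c5⟩ := mem_sC_down l hl _ _ v hv'
          rcases hv with (hv | hv) | hv
          · have := h.x1 v hv
            omega
          · obtain ⟨a1, _⟩ := mem_sA_down l hl _ _ v hv
            omega
          · obtain ⟨b1, b2, b3, b4, b5⟩ := mem_sB_down _ _ _ v hv
            rw [hcast] at b3 b5
            push_cast at b1
            have := b5 (by omega)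
            have := c5 (by omega)
            omega
        · obtain ⟨c1, c2, c3, c4⟩ := mem_sC_up l hl _ _ v hv'
          rcases hv with (hv | hv) | hv
          · have := h.x1 v hv
            omega
          · obtain ⟨a1, _⟩ := mem_sA_up l hl _ _ v hv
            omega
          · obtain ⟨b1, b2, b3, b4⟩ := mem_sB_up _ _ _ v hv
            rw [hcast] at b3
            omega
  -- bounds
  have hbounds : ∀ v ∈ stepE s l y n e, 0 ≤ v.1 ∧ v.1 < 2 * (2 * y : ℕ) ∧
      -((n + 1 : ℕ) : ℤ) ≤ v.2.1 ∧ v.2.1 ≤ (n + 1 : ℕ) ∧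
      (v.1 = 0 → v.2.1 = 0 ∧ (v.2.2 = 0 ∨ v.2.2 = 2)) ∧
      (v.1 = (2 * y : ℕ) → if !s then v.2.1 < 0 ∨ (v.2.1 = 0 ∧ v.2.2 < 3)
        else 0 < v.2.1 ∨ (v.2.1 = 0 ∧ v.2.2 ≠ 1)) := by
    intro v hv
    rw [hmem] at hv
    rcases hv with hv | hv | hv | hv | hv
    · have a0 := h.x0 v hv
      have a1 := h.x1 v hv
      have a2 := h.y0 v hv
      have a3 := h.y1 v hv
      have a4 := h.left v hv
      refine ⟨a0, ?_, ?_, ?_, a4, ?_⟩
      · push_cast; omega
      · push_cast; omega
      · push_cast; omega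
      · intro hx
        push_cast at hx
        omega
    · cases s
      · obtain ⟨a1, a2, a3, a4, a5, a6⟩ := mem_sA_down l hl _ _ v hv
        refine ⟨by omega, by push_cast; omega, by push_cast at *; omega,
          by push_cast; omega, by intro hx; omega, by intro hx; push_cast at hx; omega⟩
      · obtain ⟨a1, a2, a3, a4, a5, a6⟩ := mem_sA_up l hl _ _ v hv
        refine ⟨by omega, by push_cast; omega, by push_cast; omega,
          by push_cast at *; omega, by intro hx; omega, by intro hx; push_cast at hx; omega⟩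
    · cases s
      · obtain ⟨b1, b2, b3, b4, b5⟩ := mem_sB_down _ _ _ v hv
        rw [hcast] at b3 b5
        refine ⟨by omega, by push_cast; omega, by omega, by omega, by intro hx; omega, ?_⟩
        intro _
        simp only [Bool.not_false, if_true]
        left
        push_cast at b1
        omega
      · obtain ⟨b1, b2, b3, b4⟩ := mem_sB_up _ _ _ v hv
        rw [hcast] at b3
        refine ⟨by omega, by push_cast; omega, by omega, by omega, by intro hx; omega, ?_⟩
        intro _
        simp only [Bool.not_true, Bool.false_eq_true, if_false]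
        left
        push_cast at b1
        omega
    · obtain ⟨u, hu, e1, e2, e3⟩ := hmemT v hv
      have a0 := h.x0 u hu
      have a1 := h.x1 u hu
      have a2 := h.y0 u hu
      have a3 := h.y1 u hu
      have a4 := h.left u hu
      refine ⟨by omega, by push_cast; omega, by push_cast; omega, by push_cast; omega,
        by intro hx; omega, ?_⟩
      intro hx
      push_cast at hx
      have := a4 (by omega)
      cases s
      · simp only [Bool.not_false, if_true]
        omega
      · simp only [Bool.not_true, Bool.false_eq_true, if_false]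
        omega
    · cases s
      · obtain ⟨c1, c2, c3, c4, c5⟩ := mem_sC_down l hl _ _ v hv
        refine ⟨by omega, by push_cast; omega, by push_cast; omega, by push_cast; omega,
          by intro hx; omega, by intro hx; push_cast at hx; omega⟩
      · obtain ⟨c1, c2, c3, c4⟩ := mem_sC_up l hl _ _ v hv
        refine ⟨by omega, by push_cast; omega, by push_cast; omega, by push_cast; omega,
          by intro hx; omega, by intro hx; push_cast at hx; omega⟩
  -- chain
  have hA := chain_sA s l hl (y : ℤ) (n + 1)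
  have hB := chain_sB s (y : ℤ) (n + 1) (2 * y - 1)
  have hC := chain_sC s l hl ((y : ℤ) + 2 * y) n
  have hX1 : (e ++ sA s l y (n + 1) ++ sB s y (n + 1) (2 * y - 1)).IsChain St ∧
      (e ++ sA s l y (n + 1) ++ sB s y (n + 1) (2 * y - 1)).getLast? =
      some (if s then ((y : ℤ) + (2 * y - 1 : ℕ), ((n + 1 : ℕ) : ℤ), 2)
        else ((y : ℤ) + (2 * y - 1 : ℕ) + 1, -((n + 1 : ℕ) : ℤ), 0)) := by
    have h1 : (e ++ sA s l y (n + 1)).IsChain St ∧ (e ++ sA s l y (n + 1)).getLast? =
        some ((y : ℤ), (if s then ((n + 1 : ℕ) : ℤ) else -((n + 1 : ℕ) : ℤ)), 0) := by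
      constructor
      · rw [List.isChain_append]
        have hA1 := hA.1
        rw [List.isChain_cons] at hA1
        refine ⟨h.chain, hA1.2, ?_⟩
        intro u hu v hv
        rw [h.last] at hu
        simp only [Option.mem_def, Option.some.injEq] at hu
        subst hu
        exact hA1.1 v hv
      · have hA2 := hA.2
        have hne : sA s l (y : ℤ) (n + 1) ≠ [] := by
          cases s <;> simp [sA, it, blkU, blkD]
        rw [List.getLast?_append]
        rw [List.getLast?_cons] at hA2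
        rw [List.getLast?_eq_some_getLast hne] at hA2 ⊢
        simpa using hA2
    constructor
    · rw [List.isChain_append]
      have hB1 := hB.1
      rw [List.isChain_cons] at hB1
      refine ⟨h1.1, hB1.2, ?_⟩
      intro u hu v hv
      rw [h1.2] at hu
      simp only [Option.mem_def, Option.some.injEq] at hu
      subst hu
      exact hB1.1 v hv
    · have hB2 := hB.2
      have hne : sB s (y : ℤ) (n + 1) (2 * y - 1) ≠ [] := by
        cases s <;> simp [sB, it, blkR]
      rw [List.getLast?_append]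
      rw [List.getLast?_cons] at hB2
      rw [List.getLast?_eq_some_getLast hne] at hB2 ⊢
      simpa using hB2
  have hX2 : (e.map (Tr (2 * y)) ++ sC s l (y + 2 * y) n).IsChain St ∧
      (e.map (Tr (2 * y)) ++ sC s l (y + 2 * y) n).getLast? =
      some (if s then ((y : ℤ) + 2 * y, (n : ℤ) + 1, 1)
        else ((y : ℤ) + 2 * y, -(n : ℤ) - 1, l)) := by
    constructor
    · rw [List.isChain_append]
      have hC1 := hC.1
      rw [List.isChain_cons] at hC1
      refine ⟨?_, hC1.2, ?_⟩
      · rw [List.isChain_map]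
        exact h.chain.imp (fun a b hab => hab.tr _)
      · intro u hu v hv
        rw [List.getLast?_map, h.last] at hu
        simp only [Option.map_some, Option.mem_def, Option.some.injEq] at hu
        subst hu
        exact hC1.1 v hv
    · have hC2 := hC.2
      have hne : sC s l ((y : ℤ) + 2 * y) n ≠ [] := by
        cases s <;> simp [sC]
      rw [List.getLast?_append]
      rw [List.getLast?_cons] at hC2
      rw [List.getLast?_eq_some_getLast hne] at hC2 ⊢
      simpa using hC2
  refine ⟨by omega, hnodup, fun v hv => (hbounds v hv).1, fun v hv => (hbounds v hv).2.1,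
    fun v hv => (hbounds v hv).2.2.1, fun v hv => (hbounds v hv).2.2.2.1,
    fun v hv => (hbounds v hv).2.2.2.2.1, fun v hv => (hbounds v hv).2.2.2.2.2, ?_, ?_, ?_⟩
  · -- chain
    simp only [stepE]
    rw [List.isChain_append]
    refine ⟨hX1.1, ?_, ?_⟩
    · rw [List.isChain_reverse]
      exact hX2.1.imp (fun a b hab => hab.symm)
    · intro u hu v hv
      rw [hX1.2] at hu
      rw [List.head?_reverse, hX2.2] at hv
      simp only [Option.mem_def, Option.some.injEq] at hu hv
      subst hu hv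
      cases s
      · simp only [Bool.false_eq_true, if_false]
        refine Or.inl (Or.inr (Or.inr (Or.inr (Or.inl ⟨rfl, hl, ?_, ?_⟩))))
        · show (y : ℤ) + 2 * y = y + (2 * y - 1 : ℕ) + 1
          omega
        · show -(n : ℤ) - 1 = -((n + 1 : ℕ) : ℤ)
          omega
      · simp only [if_true]
        refine Or.inl (Or.inr (Or.inr (Or.inl ⟨rfl, rfl, ?_, ?_⟩)))
        · show (y : ℤ) + 2 * y = y + (2 * y - 1 : ℕ) + 1
          omega
        · show (n : ℤ) + 1 = ((n + 1 : ℕ) : ℤ)
          omega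
  · -- last
    simp only [stepE]
    have hne : e ≠ [] := by
      intro h'
      have := h.last
      rw [h'] at this
      simp at this
    rw [List.reverse_append, List.getLast?_append, List.getLast?_append, List.getLast?_reverse,
      List.head?_map, h.head]
    simp [Tr]
  · simp only [stepE, List.append_assoc]
    rw [List.head?_append, h.head]
    rfl

end Pool.Agent.H.MP_d67245_co
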