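import Mathlib

/-!
# The exhaustive search behind the lower bounds

Words of length `n` over `{0, …, q-1}` are coded by numbers `< q ^ n`; a list of words of length
`n` is a list of pairs (code, code of the reversal). All functions are written with recursors and
primitive operations on `Nat`, so that the kernel evaluates them quickly.
-/

set_option autoImplicit false

namespace Pool.Agent.H.MP_d67245_co

/-- bit `i` of `m` -/
def tb (m i : Nat) : Bool := Nat.beq (Nat.land (Nat.shiftRight m i) 1) 1

theorem beq_of_eq {a b : ℕ} (h : a = b) : Nat.beq a b = true := by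
  rw [h]
  exact Nat.beq_refl _

/-- filter -/
noncomputable def lfilter (p : Nat × Nat → Bool) (l : List (Nat × Nat)) : List (Nat × Nat) :=
  List.rec [] (fun a _ ih => Bool.rec ih (a :: ih) (p a)) l

/-- all -/
noncomputable def lall (p : Nat × Nat → Bool) (l : List (Nat × Nat)) : Bool :=
  List.rec true (fun a _ ih => Bool.rec false ih (p a)) l

/-- one letter extensions to the right whose suffix belongs to the set with mask `M` -/
noncomputable def ext (q Qn M : Nat) (L : List Nat) (W : List (Nat × Nat)) : List (Nat × Nat) :=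
  List.rec [] (fun p _ ih =>
    List.rec ih (fun c _ ih2 =>
      Bool.rec ih2 ((Nat.add (Nat.mul q p.1) c, Nat.add (Nat.mul c Qn) p.2) :: ih2)
        (tb M (Nat.mod (Nat.add (Nat.mul q p.1) c) Qn))) L) W

/-- bit mask of the set of codes -/
noncomputable def maskOf (E : List (Nat × Nat)) : Nat :=
  List.rec 0 (fun p _ ih => Nat.lor ih (Nat.shiftLeft 1 p.1)) E

/-- index of `x` in a list of codes -/
noncomputable def idx (W : List (Nat × Nat)) (x : Nat) : Nat :=
  List.rec 0 (fun p _ ih => Bool.rec (Nat.succ ih) 0 (Nat.beq p.1 x)) W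

/-- length -/
noncomputable def len (W : List (Nat × Nat)) : Nat := List.rec 0 (fun _ _ ih => Nat.succ ih) W

/-- adjacency matrix (row `i`, column `j` is the bit `i * m + j`) -/
noncomputable def adj (m q Qn : Nat) (W E : List (Nat × Nat)) : Nat :=
  List.rec 0 (fun e _ ih => Nat.lor ih (Nat.shiftLeft 1
    (Nat.add (Nat.mul (idx W (Nat.div e.1 q)) m) (idx W (Nat.mod e.1 Qn))))) E

/-- transitive closure of a matrix -/
noncomputable def warsh (m ones full : Nat) (R : Nat) (k : Nat) : Nat :=
  Nat.rec R (fun k ih => Nat.lor ih (Nat.mul (Nat.land (Nat.shiftRight ih k) ones)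
    (Nat.land (Nat.shiftRight ih (Nat.mul k m)) full))) k

/-- row of a matrix -/
noncomputable def row (m full R i : Nat) : Nat := Nat.land (Nat.shiftRight R (Nat.mul i m)) full

/-- if the rank function `φ` is monotone along the edges `E`, keep only edges between vertices of
equal rank -/
noncomputable def pruneWith (q Qn : Nat) (φ : Nat → Nat) (E : List (Nat × Nat)) :
    List (Nat × Nat) :=
  Bool.rec E
    (lfilter (fun e => Bool.rec false
      (Nat.beq (φ (Nat.mod e.2 Qn)) (φ (Nat.div e.1 q)))
      (Nat.beq (φ (Nat.mod e.1 Qn)) (φ (Nat.div e.1 q)))) E)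
    (lall (fun e => Nat.ble (φ (Nat.mod e.1 Qn)) (φ (Nat.div e.1 q))) E)

/-- keep only words whose reversal is present -/
noncomputable def symm (E : List (Nat × Nat)) : List (Nat × Nat) :=
  (fun ME => lfilter (fun e => tb ME e.2) E) (maskOf E)

/-- the pruning with rank given by the reachability relation -/
noncomputable def prune (q Qn : Nat) (W E : List (Nat × Nat)) : List (Nat × Nat) :=
  (fun m =>
    (fun E' full =>
      (fun ones =>
        (fun R => pruneWith q Qn (fun x => row m full R (idx W x)) E')
        (warsh m ones full (adj m q Qn W E') m))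
      (Nat.div (Nat.sub (Nat.pow 2 (Nat.mul m m)) 1) full))
    (symm E) (Nat.sub (Nat.pow 2 m) 1))
  (len W)

/-- branching over the set of palindromes which occur -/
noncomputable def branch (f : List (Nat × Nat) → Nat → Bool) (ps : List (Nat × Nat)) :
    List (Nat × Nat) → Nat → Bool :=
  List.rec f (fun p _ ih np b =>
    Bool.rec false (Nat.rec true (fun b' _ => ih (p :: np) b') b) (ih np b)) ps

/-- the search -/
noncomputable def search (q K : Nat) (L : List Nat) (fuel : Nat) :
    Nat → Nat → List (Nat × Nat) → Nat → Bool :=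
  Nat.rec (fun _ _ _ _ => false) (fun _ ih n Qn W b =>
    List.rec true (fun _ _ _ =>
      (fun E =>
        (fun np =>
          Bool.rec
            (Bool.rec false
              (Nat.rec true
                (fun b' _ => ih (Nat.succ n) (Nat.mul q Qn) (prune q Qn W E) b') b)
              (ih (Nat.succ n) (Nat.mul q Qn) (prune q Qn W np) b))
            (branch (fun E' b' => ih (Nat.succ n) (Nat.mul q Qn) (prune q Qn W E') b')
              (lfilter (fun e => Nat.beq e.1 e.2) E) np b)
            (Nat.ble (Nat.succ n) K))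
        (lfilter (fun e => Bool.rec true false (Nat.beq e.1 e.2)) E))
      (ext q Qn (maskOf W) L W)) W) fuel

/-! ### Soundness of the list functions -/

theorem tb_eq (m i : ℕ) : tb m i = m.testBit i := by
  unfold tb
  have h1 : Nat.land (Nat.shiftRight m i) 1 = (m / 2 ^ i) % 2 := by
    show (m >>> i) &&& 1 = _
    rw [Nat.shiftRight_eq_div_pow, Nat.and_one_is_mod]
  rw [h1, Nat.testBit_eq_decide_div_mod_eq]
  have h2 : Nat.beq ((m / 2 ^ i) % 2) 1 = decide ((m / 2 ^ i) % 2 = 1) := by
    rcases Nat.mod_two_eq_zero_or_one (m / 2 ^ i) with h | h <;> rw [h] <;> rfl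
  exact h2

theorem mem_lfilter (p : ℕ × ℕ → Bool) (l : List (ℕ × ℕ)) (a : ℕ × ℕ) :
    a ∈ lfilter p l ↔ a ∈ l ∧ p a = true := by
  induction l with
  | nil => simp [lfilter]
  | cons b l ih =>
    have h : lfilter p (b :: l) = Bool.rec (lfilter p l) (b :: lfilter p l) (p b) := rfl
    rw [h]
    cases hb : p b
    · show a ∈ lfilter p l ↔ _
      rw [ih, List.mem_cons]
      constructor
      · rintro ⟨h1, h2⟩; exact ⟨Or.inr h1, h2⟩
      · rintro ⟨h1 | h1, h2⟩
        · subst h1; rw [hb] at h2; exact absurd h2 (by simp)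
        · exact ⟨h1, h2⟩
    · show a ∈ b :: lfilter p l ↔ _
      rw [List.mem_cons, ih, List.mem_cons]
      constructor
      · rintro (h1 | ⟨h1, h2⟩)
        · subst h1; exact ⟨Or.inl rfl, hb⟩
        · exact ⟨Or.inr h1, h2⟩
      · rintro ⟨h1 | h1, h2⟩
        · exact Or.inl h1
        · exact Or.inr ⟨h1, h2⟩

theorem of_lall (p : ℕ × ℕ → Bool) (l : List (ℕ × ℕ)) (h : lall p l = true) :
    ∀ a ∈ l, p a = true := by
  induction l with
  | nil => intro a ha; simp at ha
  | cons b l ih =>
    have h' : lall p (b :: l) = Bool.rec false (lall p l) (p b) := rfl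
    rw [h'] at h
    cases hb : p b
    · rw [hb] at h; exact absurd h (by simp)
    · rw [hb] at h
      intro a ha
      rcases List.mem_cons.mp ha with h1 | h1
      · rw [h1]; exact hb
      · exact ih h a h1

theorem testBit_maskOf (E : List (ℕ × ℕ)) (e : ℕ × ℕ) (he : e ∈ E) :
    tb (maskOf E) e.1 = true := by
  rw [tb_eq]
  induction E with
  | nil => simp at he
  | cons b E ih =>
    have h : maskOf (b :: E) = maskOf E ||| (1 <<< b.1) := rfl
    rw [h, Nat.testBit_or]
    rcases List.mem_cons.mp he with h1 | h1
    · subst h1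
      have : (1 <<< e.1).testBit e.1 = true := by
        rw [Nat.one_shiftLeft, Nat.testBit_two_pow_self]
      rw [this, Bool.or_true]
    · rw [ih h1, Bool.true_or]

theorem mem_ext (q Qn M : ℕ) (L : List ℕ) (W : List (ℕ × ℕ)) (p : ℕ × ℕ) (c : ℕ) (hp : p ∈ W)
    (hc : c ∈ L) (hM : tb M ((q * p.1 + c) % Qn) = true) :
    (q * p.1 + c, c * Qn + p.2) ∈ ext q Qn M L W := by
  induction W with
  | nil => simp at hp
  | cons b W ih =>
    -- the inner recursion
    have inner : ∀ (L' : List ℕ) (ih0 : List (ℕ × ℕ)),
        (∀ x ∈ ih0, x ∈ (List.rec ih0 (fun c _ ih2 =>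
          Bool.rec ih2 ((Nat.add (Nat.mul q b.1) c, Nat.add (Nat.mul c Qn) b.2) :: ih2)
            (tb M (Nat.mod (Nat.add (Nat.mul q b.1) c) Qn))) L' : List (ℕ × ℕ))) ∧
        (c ∈ L' → tb M ((q * b.1 + c) % Qn) = true → (q * b.1 + c, c * Qn + b.2) ∈
          (List.rec ih0 (fun c _ ih2 =>
          Bool.rec ih2 ((Nat.add (Nat.mul q b.1) c, Nat.add (Nat.mul c Qn) b.2) :: ih2)
            (tb M (Nat.mod (Nat.add (Nat.mul q b.1) c) Qn))) L' : List (ℕ × ℕ))) := by
      intro L'
      induction L' with
      | nil =>
        intro ih0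
        exact ⟨fun x hx => hx, fun h => absurd h (by simp)⟩
      | cons d L' ihL =>
        intro ih0
        obtain ⟨h1, h2⟩ := ihL ih0
        constructor
        · intro x hx
          show x ∈ (Bool.rec _ _ (tb M (Nat.mod (Nat.add (Nat.mul q b.1) d) Qn)) : List (ℕ × ℕ))
          cases tb M (Nat.mod (Nat.add (Nat.mul q b.1) d) Qn)
          · exact h1 x hx
          · exact List.mem_cons_of_mem _ (h1 x hx)
        · intro hcL ht
          show _ ∈ (Bool.rec _ _ (tb M (Nat.mod (Nat.add (Nat.mul q b.1) d) Qn)) : List (ℕ × ℕ))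
          rcases List.mem_cons.mp hcL with h | h
          · subst h
            have ht' : tb M (Nat.mod (Nat.add (Nat.mul q b.1) c) Qn) = true := ht
            rw [ht']
            exact List.mem_cons_self
          · cases tb M (Nat.mod (Nat.add (Nat.mul q b.1) d) Qn)
            · exact h2 h ht
            · exact List.mem_cons_of_mem _ (h2 h ht)
    rcases List.mem_cons.mp hp with h | h
    · subst h
      exact (inner L _).2 hc hM
    · exact (inner L _).1 _ (ih h)

theorem mem_symm (E : List (ℕ × ℕ)) (e : ℕ × ℕ) (he : e ∈ E) (he' : (e.2, e.1) ∈ E) :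
    e ∈ symm E := by
  show e ∈ lfilter (fun e => tb (maskOf E) e.2) E
  rw [mem_lfilter]
  exact ⟨he, testBit_maskOf E (e.2, e.1) he'⟩

/-! ### Words as codes -/

section codes

variable (q : ℕ) (w : ℕ → ℕ)

/-- code of the factor of length `n` at position `i` -/
def code : ℕ → ℕ → ℕ
  | 0, _ => 0
  | n + 1, i => q * code n i + w (i + n)

/-- code of the reversal of the factor of length `n` at position `i` -/
def rcode : ℕ → ℕ → ℕ
  | 0, _ => 0
  | n + 1, i => w (i + n) * q ^ n + rcode n i

variable {q w}

theorem code_lt (hw : ∀ i, w i < q) (n i : ℕ) : code q w n i < q ^ n := by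
  induction n with
  | zero => simp [code]
  | succ n ih =>
    have h1 : code q w n i + 1 ≤ q ^ n := ih
    have h2 := hw (i + n)
    calc code q w (n + 1) i = q * code q w n i + w (i + n) := rfl
      _ < q * code q w n i + q := by omega
      _ = q * (code q w n i + 1) := by ring
      _ ≤ q * q ^ n := Nat.mul_le_mul_left _ h1
      _ = q ^ (n + 1) := by ring

theorem rcode_lt (hw : ∀ i, w i < q) (n i : ℕ) : rcode q w n i < q ^ n := by
  induction n with
  | zero => simp [rcode]
  | succ n ih =>
    have h2 : w (i + n) + 1 ≤ q := hw (i + n)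
    calc rcode q w (n + 1) i = w (i + n) * q ^ n + rcode q w n i := rfl
      _ < w (i + n) * q ^ n + q ^ n := by omega
      _ = (w (i + n) + 1) * q ^ n := by ring
      _ ≤ q * q ^ n := Nat.mul_le_mul_right _ h2
      _ = q ^ (n + 1) := by ring

theorem code_succ' (n i : ℕ) : code q w (n + 1) i = w i * q ^ n + code q w n (i + 1) := by
  induction n with
  | zero => simp [code]
  | succ n ih =>
    have h1 : code q w (n + 1 + 1) i = q * code q w (n + 1) i + w (i + (n + 1)) := rfl
    have h2 : code q w (n + 1) (i + 1) = q * code q w n (i + 1) + w (i + 1 + n) := rfl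
    rw [h1, ih, h2, show i + 1 + n = i + (n + 1) by ring]
    ring

theorem rcode_succ' (n i : ℕ) : rcode q w (n + 1) i = q * rcode q w n (i + 1) + w i := by
  induction n with
  | zero => simp [rcode]
  | succ n ih =>
    have h1 : rcode q w (n + 1 + 1) i = w (i + (n + 1)) * q ^ (n + 1) + rcode q w (n + 1) i := rfl
    have h2 : rcode q w (n + 1) (i + 1) = w (i + 1 + n) * q ^ n + rcode q w n (i + 1) := rfl
    rw [h1, ih, h2, show i + 1 + n = i + (n + 1) by ring]
    ring

theorem code_div (hw : ∀ i, w i < q) (n i : ℕ) : code q w (n + 1) i / q = code q w n i := by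
  have hq : 0 < q := lt_of_le_of_lt (Nat.zero_le _) (hw 0)
  show (q * code q w n i + w (i + n)) / q = _
  rw [Nat.mul_add_div hq, Nat.div_eq_of_lt (hw _), Nat.add_zero]

theorem code_mod (hw : ∀ i, w i < q) (n i : ℕ) :
    code q w (n + 1) i % q ^ n = code q w n (i + 1) := by
  rw [code_succ', Nat.mul_comm, Nat.mul_add_mod, Nat.mod_eq_of_lt (code_lt hw _ _)]

theorem rcode_mod (hw : ∀ i, w i < q) (n i : ℕ) :
    rcode q w (n + 1) i % q ^ n = rcode q w n i := by
  show (w (i + n) * q ^ n + rcode q w n i) % q ^ n = _
  rw [Nat.mul_comm, Nat.mul_add_mod, Nat.mod_eq_of_lt (rcode_lt hw _ _)]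

/-- palindromic factors (codes) of length `n` -/
noncomputable def pc (q : ℕ) (w : ℕ → ℕ) (n : ℕ) : Finset ℕ := by
  classical
  exact (Finset.range (q ^ n)).filter (fun c => ∃ i, code q w n i = c ∧ rcode q w n i = c)

theorem mem_pc (hw : ∀ i, w i < q) (n c : ℕ) :
    c ∈ pc q w n ↔ ∃ i, code q w n i = c ∧ rcode q w n i = c := by
  classical
  unfold pc
  rw [Finset.mem_filter, Finset.mem_range]
  constructor
  · exact fun h => h.2
  · rintro ⟨i, hi⟩
    exact ⟨hi.1 ▸ code_lt hw n i, i, hi⟩

/-- contribution of length `n` to the count of palindromes -/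
noncomputable def cost (q K : ℕ) (w : ℕ → ℕ) (n : ℕ) : ℕ := by
  classical
  exact if n ≤ K then (pc q w n).card else if (pc q w n).Nonempty then 1 else 0

/-- the properties of the word used by the search -/
structure Good (q : ℕ) (w : ℕ → ℕ) : Prop where
  lt : ∀ i, w i < q
  rev : ∀ n i, ∃ j, code q w n j = rcode q w n i ∧ rcode q w n j = code q w n i
  recur : ∀ n i j, ∃ j', i ≤ j' ∧ code q w n j' = code q w n j

theorem rank_const (hg : Good q w) (n : ℕ) (φ : ℕ → ℕ)
    (h : ∀ i, φ (code q w n (i + 1)) ≤ φ (code q w n i)) (i j : ℕ) :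
    φ (code q w n i) = φ (code q w n j) := by
  have hanti : Antitone (fun i => φ (code q w n i)) := antitone_nat_of_succ_le h
  have key : ∀ i j, φ (code q w n j) ≤ φ (code q w n i) := by
    intro i j
    obtain ⟨j', hj', e⟩ := hg.recur n i j
    rw [← e]
    exact hanti hj'
  exact le_antisymm (key j i) (key i j)

theorem pruneWith_sound (hg : Good q w) (n : ℕ) (φ : ℕ → ℕ) (E : List (ℕ × ℕ))
    (hE : ∀ i, (code q w (n + 1) i, rcode q w (n + 1) i) ∈ E) :
    ∀ i, (code q w (n + 1) i, rcode q w (n + 1) i) ∈ pruneWith q (q ^ n) φ E := by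
  intro i
  unfold pruneWith
  cases hall : lall (fun e => Nat.ble (φ (Nat.mod e.1 (q ^ n))) (φ (Nat.div e.1 q))) E
  · exact hE i
  · show _ ∈ lfilter _ E
    have hmono : ∀ i, φ (code q w n (i + 1)) ≤ φ (code q w n i) := by
      intro i
      have h1 := of_lall _ _ hall _ (hE i)
      have h2 : φ (code q w (n + 1) i % q ^ n) ≤ φ (code q w (n + 1) i / q) :=
        Nat.le_of_ble_eq_true h1
      rwa [code_mod hg.lt, code_div hg.lt] at h2
    have hc := rank_const hg n φ hmono
    rw [mem_lfilter]
    refine ⟨hE i, ?_⟩
    have e1 : Nat.beq (φ (Nat.mod (code q w (n + 1) i) (q ^ n)))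
        (φ (Nat.div (code q w (n + 1) i) q)) = true := by
      have : φ (code q w (n + 1) i % q ^ n) = φ (code q w (n + 1) i / q) := by
        rw [code_mod hg.lt, code_div hg.lt]
        exact hc _ _
      exact beq_of_eq this
    have e2 : Nat.beq (φ (Nat.mod (rcode q w (n + 1) i) (q ^ n)))
        (φ (Nat.div (code q w (n + 1) i) q)) = true := by
      have : φ (rcode q w (n + 1) i % q ^ n) = φ (code q w (n + 1) i / q) := by
        rw [rcode_mod hg.lt, code_div hg.lt]
        obtain ⟨j, hj, _⟩ := hg.rev n i
        rw [← hj]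
        exact hc _ _
      exact beq_of_eq this
    show Bool.rec false (Nat.beq (φ (Nat.mod (rcode q w (n + 1) i) (q ^ n)))
        (φ (Nat.div (code q w (n + 1) i) q))) (Nat.beq (φ (Nat.mod (code q w (n + 1) i) (q ^ n)))
        (φ (Nat.div (code q w (n + 1) i) q))) = true
    rw [e1, e2]

theorem prune_sound (hg : Good q w) (n : ℕ) (W E : List (ℕ × ℕ))
    (hE : ∀ i, (code q w (n + 1) i, rcode q w (n + 1) i) ∈ E) :
    ∀ i, (code q w (n + 1) i, rcode q w (n + 1) i) ∈ prune q (q ^ n) W E := by
  have h : ∀ i, (code q w (n + 1) i, rcode q w (n + 1) i) ∈ symm E := by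
    intro i
    apply mem_symm _ _ (hE i)
    obtain ⟨j, h1, h2⟩ := hg.rev (n + 1) i
    have := hE j
    rwa [h1, h2] at this
  intro i
  exact pruneWith_sound hg n (fun x => row (len W) (Nat.sub (Nat.pow 2 (len W)) 1)
    (warsh (len W) (Nat.div (Nat.sub (Nat.pow 2 (Nat.mul (len W) (len W))) 1)
      (Nat.sub (Nat.pow 2 (len W)) 1)) (Nat.sub (Nat.pow 2 (len W)) 1)
      (adj (len W) q (q ^ n) W (symm E)) (len W)) (idx W x)) (symm E) h i

theorem branch_sound (hg : Good q w) (n : ℕ) (f : List (ℕ × ℕ) → ℕ → Bool) (T : ℕ)
    (hf : ∀ np b, (∀ i, (code q w (n + 1) i, rcode q w (n + 1) i) ∈ np) → T ≤ b → f np b = false)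
    (ps : List (ℕ × ℕ)) :
    ∀ (np : List (ℕ × ℕ)) (b : ℕ),
      (∀ i, (code q w (n + 1) i, rcode q w (n + 1) i) ∈ np ∨
        ((code q w (n + 1) i, rcode q w (n + 1) i) ∈ ps ∧
          code q w (n + 1) i = rcode q w (n + 1) i)) →
      ((pc q w (n + 1)).filter (fun c => (c, c) ∉ np)).card + T ≤ b →
      branch f ps np b = false := by
  induction ps with
  | nil =>
    intro np b h hb
    apply hf np b
    · intro i
      rcases h i with h1 | h1
      · exact h1
      · exact absurd h1.1 (by simp)
    · omega
  | cons p ps ih =>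
    intro np b h hb
    have hdef : branch f (p :: ps) np b =
      Bool.rec false (Nat.rec true (fun b' _ => branch f ps (p :: np) b') b)
        (branch f ps np b) := rfl
    rw [hdef]
    by_cases hp : p ∉ np ∧ ∃ i, (code q w (n + 1) i, rcode q w (n + 1) i) = p ∧
        code q w (n + 1) i = rcode q w (n + 1) i
    · obtain ⟨hpn, i, hi, hpal⟩ := hp
      have hpc : p.1 ∈ (pc q w (n + 1)).filter (fun c => (c, c) ∉ np) := by
        rw [Finset.mem_filter, mem_pc hg.lt]
        subst hi
        refine ⟨⟨i, rfl, hpal.symm⟩, ?_⟩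
        rw [← hpal] at hpn
        exact hpn
      have hpp : p = (p.1, p.1) := by
        subst hi
        simp [← hpal]
      have hcard : ((pc q w (n + 1)).filter (fun c => (c, c) ∉ p :: np)).card + 1 ≤
          ((pc q w (n + 1)).filter (fun c => (c, c) ∉ np)).card := by
        apply Nat.succ_le_of_lt
        apply Finset.card_lt_card
        refine ⟨?_, ?_⟩
        · intro c hc
          rw [Finset.mem_filter] at hc ⊢
          refine ⟨hc.1, fun h' => hc.2 (List.mem_cons_of_mem _ h')⟩
        · intro hsub
          have := hsub hpc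
          rw [Finset.mem_filter] at this
          exact this.2 (by rw [← hpp]; exact List.mem_cons_self)
      rcases b with _ | b'
      · omega
      · have : branch f ps (p :: np) b' = false := by
          apply ih
          · intro i'
            rcases h i' with h1 | ⟨h1, h2⟩
            · exact Or.inl (List.mem_cons_of_mem _ h1)
            · rcases List.mem_cons.mp h1 with h3 | h3
              · exact Or.inl (h3 ▸ List.mem_cons_self)
              · exact Or.inr ⟨h3, h2⟩
          · omega
        show (Bool.rec false (branch f ps (p :: np) b') (branch f ps np (b' + 1)) : Bool) = false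
        rw [this]
        cases branch f ps np (b' + 1) <;> rfl
    · have : branch f ps np b = false := by
        apply ih np b _ hb
        intro i
        rcases h i with h1 | ⟨h1, h2⟩
        · exact Or.inl h1
        · rcases List.mem_cons.mp h1 with h3 | h3
          · by_cases hpn : p ∈ np
            · exact Or.inl (h3 ▸ hpn)
            · exact absurd ⟨hpn, i, h3, h2⟩ hp
          · exact Or.inr ⟨h3, h2⟩
      rw [this]

theorem search_sound (hg : Good q w) (K : ℕ) (L : List ℕ) (hL : ∀ c, c < q → c ∈ L)
    (fuel : ℕ) : ∀ (n : ℕ) (W : List (ℕ × ℕ)) (b : ℕ),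
      (∀ i, (code q w n i, rcode q w n i) ∈ W) →
      (∀ N, ∑ m ∈ Finset.Ico (n + 1) N, cost q K w m ≤ b) →
      search q K L fuel n (q ^ n) W b = false := by
  induction fuel with
  | zero => intro n W b _ _; rfl
  | succ fuel ih =>
    intro n W b hW hb
    rcases W with _ | ⟨p0, W0⟩
    · exact absurd (hW 0) (by simp)
    set W := p0 :: W0 with hWdef
    -- the extension
    set E := ext q (q ^ n) (maskOf W) L W with hE
    have hEmem : ∀ i, (code q w (n + 1) i, rcode q w (n + 1) i) ∈ E := by
      intro i
      have := mem_ext q (q ^ n) (maskOf W) L W (code q w n i, rcode q w n i) (w (i + n)) (hW i)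
        (hL _ (hg.lt _)) (by
          show tb (maskOf W) (code q w (n + 1) i % q ^ n) = true
          rw [code_mod hg.lt]
          exact testBit_maskOf W _ (hW (i + 1)))
      exact this
    have hbstep : ∀ b', cost q K w (n + 1) + b' = b →
        ∀ N, ∑ m ∈ Finset.Ico (n + 1 + 1) N, cost q K w m ≤ b' := by
      intro b' hb' N
      have h1 := hb (max N (n + 2))
      have h2 : ∑ m ∈ Finset.Ico (n + 1) (max N (n + 2)), cost q K w m =
          cost q K w (n + 1) + ∑ m ∈ Finset.Ico (n + 1 + 1) (max N (n + 2)), cost q K w m :=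
        Finset.sum_eq_sum_Ico_succ_bot (by omega) _
      have h3 : ∑ m ∈ Finset.Ico (n + 1 + 1) N, cost q K w m ≤
          ∑ m ∈ Finset.Ico (n + 1 + 1) (max N (n + 2)), cost q K w m :=
        Finset.sum_le_sum_of_subset (Finset.Ico_subset_Ico_right (le_max_left _ _))
      omega
    have hcost_le : cost q K w (n + 1) ≤ b := by
      have := hb (n + 2)
      rw [Nat.Ico_succ_singleton, Finset.sum_singleton] at this
      exact this
    have hpow : Nat.mul q (q ^ n) = q ^ (n + 1) := by
      show q * q ^ n = _
      ring
    have hdef : search q K L (fuel + 1) n (q ^ n) W b =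
        Bool.rec
            (Bool.rec false
              (Nat.rec true
                (fun b' _ => search q K L fuel (Nat.succ n) (Nat.mul q (q ^ n))
                  (prune q (q ^ n) W E) b') b)
              (search q K L fuel (Nat.succ n) (Nat.mul q (q ^ n)) (prune q (q ^ n) W
                (lfilter (fun e => Bool.rec true false (Nat.beq e.1 e.2)) E)) b))
            (branch (fun E' b' => search q K L fuel (Nat.succ n) (Nat.mul q (q ^ n))
              (prune q (q ^ n) W E') b')
              (lfilter (fun e => Nat.beq e.1 e.2) E)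
                (lfilter (fun e => Bool.rec true false (Nat.beq e.1 e.2)) E) b)
            (Nat.ble (Nat.succ n) K) := rfl
    rw [hdef, hpow]
    have hstep : ∀ E' b', (∀ i, (code q w (n + 1) i, rcode q w (n + 1) i) ∈ E') →
        (∀ N, ∑ m ∈ Finset.Ico (n + 1 + 1) N, cost q K w m ≤ b') →
        search q K L fuel (Nat.succ n) (q ^ (n + 1)) (prune q (q ^ n) W E') b' = false := by
      intro E' b' h1 h2
      exact ih (n + 1) _ b' (prune_sound hg n W E' h1) h2
    have hnp : ∀ i, code q w (n + 1) i ≠ rcode q w (n + 1) i →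
        (code q w (n + 1) i, rcode q w (n + 1) i) ∈
          lfilter (fun e => Bool.rec true false (Nat.beq e.1 e.2)) E := by
      intro i hi
      rw [mem_lfilter]
      refine ⟨hEmem i, ?_⟩
      have : Nat.beq (code q w (n + 1) i) (rcode q w (n + 1) i) = false := by
        cases h : Nat.beq (code q w (n + 1) i) (rcode q w (n + 1) i)
        · rfl
        · exact absurd (Nat.eq_of_beq_eq_true h) hi
      show (Bool.rec true false (Nat.beq (code q w (n + 1) i) (rcode q w (n + 1) i)) : Bool) = true
      rw [this]
    cases hK : Nat.ble (Nat.succ n) K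
    · -- long words
      have hK' : ¬ n + 1 ≤ K := fun h => by
        have := Nat.ble_eq_true_of_le h
        rw [show n + 1 = Nat.succ n from rfl, hK] at this
        exact absurd this (by simp)
      show (Bool.rec false (Nat.rec true _ b) (search q K L fuel _ _ _ b) : Bool) = false
      by_cases hpal : (pc q w (n + 1)).Nonempty
      · have hc : cost q K w (n + 1) = 1 := by
          unfold cost; rw [if_neg hK', if_pos hpal]
        rcases b with _ | b'
        · omega
        · have := hstep E b' hEmem (hbstep b' (by omega))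
          show (Bool.rec false (search q K L fuel (Nat.succ n) (q ^ (n + 1))
            (prune q (q ^ n) W E) b') _ : Bool) = false
          rw [this]
          cases (search q K L fuel (Nat.succ n) (q ^ (n + 1)) (prune q (q ^ n) W
                (lfilter (fun e => Bool.rec true false (Nat.beq e.1 e.2)) E)) (b' + 1)) <;> rfl
      · have hc : cost q K w (n + 1) = 0 := by
          unfold cost; rw [if_neg hK', if_neg hpal]
        have hnopal : ∀ i, code q w (n + 1) i ≠ rcode q w (n + 1) i := by
          intro i hi
          apply hpal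
          exact ⟨code q w (n + 1) i, (mem_pc hg.lt _ _).mpr ⟨i, rfl, hi.symm⟩⟩
        have := hstep _ b (fun i => hnp i (hnopal i)) (hbstep b (by omega))
        rw [this]
    · -- short words
      have hK' : n + 1 ≤ K := Nat.le_of_ble_eq_true hK
      have hc : cost q K w (n + 1) = (pc q w (n + 1)).card := by
        unfold cost; rw [if_pos hK']
      show branch _ _ _ b = false
      apply branch_sound hg n _ (b - (pc q w (n + 1)).card)
      · intro np b' h1 h2
        apply hstep np b' h1
        intro N
        exact (hbstep (b - (pc q w (n + 1)).card) (by omega) N).trans h2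
      · intro i
        by_cases hi : code q w (n + 1) i = rcode q w (n + 1) i
        · right
          refine ⟨?_, hi⟩
          rw [mem_lfilter]
          refine ⟨hEmem i, ?_⟩
          show Nat.beq (code q w (n + 1) i) (rcode q w (n + 1) i) = true
          rw [hi]
          exact Nat.beq_refl _
        · exact Or.inl (hnp i hi)
      · have := Finset.card_filter_le (pc q w (n + 1))
          (fun c => (c, c) ∉ lfilter (fun e => Bool.rec true false (Nat.beq e.1 e.2)) E)
        omega

end codes

/-- The conclusion of a successful search started at length `0`. -/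
theorem search_bound {q : ℕ} {w : ℕ → ℕ} (hg : Good q w) (K : ℕ) (L : List ℕ)
    (hL : ∀ c, c < q → c ∈ L) (fuel b : ℕ) (hs : search q K L fuel 0 1 [(0, 0)] b = true)
    (hb : ∀ N, ∑ m ∈ Finset.Ico 0 N, cost q K w m ≤ b + 1) : False := by
  have h0 : cost q K w 0 = 1 := by
    unfold cost
    rw [if_pos (Nat.zero_le _)]
    have : pc q w 0 = {0} := by
      ext c
      rw [mem_pc hg.lt, Finset.mem_singleton]
      constructor
      · rintro ⟨i, h, _⟩; exact h.symm
      · rintro rfl; exact ⟨0, rfl, rfl⟩
    rw [this, Finset.card_singleton]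
  have := search_sound hg K L hL fuel 0 [(0, 0)] b (fun i => by simp [code, rcode]) (by
    intro N
    rcases Nat.eq_zero_or_pos N with h | h
    · subst h; simp
    · have h1 := hb N
      rw [Finset.sum_eq_sum_Ico_succ_bot h, h0] at h1
      omega)
  rw [pow_zero, hs] at this
  exact absurd this (by simp)

end Pool.Agent.H.MP_d67245_co
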