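import Pool.Agent.H.MP_d67245_co.Occ
import Pool.Agent.H.MP_d67245_co.Path

/-!
# Long `k`-palindromes cannot occur along a self-avoiding walk: the local check
-/

set_option autoImplicit false

namespace Pool.Agent.H.MP_d67245_co

/-- translation -/
def tr2 (d : ℤ × ℤ) (v : Nd) : Nd := (v.1 + d.1, v.2.1 + d.2, v.2.2)

theorem tr2_tr2 (d d' : ℤ × ℤ) (v : Nd) : tr2 d (tr2 d' v) = tr2 (d'.1 + d.1, d'.2 + d.2) v := by
  simp only [tr2, Prod.mk.injEq, and_true]
  constructor <;> ring

/-- the step relation given by a table of displacements -/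
def RelA (δ : ℕ → ℕ → Option (ℤ × ℤ)) (a b : Nd) : Prop :=
  δ a.2.2 b.2.2 = some (b.1 - a.1, b.2.1 - a.2.1)

/-- nodes of one block (same position, same class) occur in increasing order -/
def Ord (cls : ℕ → ℕ) (u v : Nd) : Prop :=
  ¬ (u.1 = v.1 ∧ u.2.1 = v.2.1 ∧ cls u.2.2 = cls v.2.2 ∧ v.2.2 ≤ u.2.2)

instance (cls : ℕ → ℕ) (u v : Nd) : Decidable (Ord cls u v) := by
  unfold Ord; infer_instance

theorem Ord.tr2 {cls : ℕ → ℕ} {u v : Nd} (d : ℤ × ℤ) :
    Ord cls (tr2 d u) (tr2 d v) ↔ Ord cls u v := by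
  simp only [Ord, Pool.Agent.H.MP_d67245_co.tr2, add_left_inj]

theorem nodup_of_ord {cls : ℕ → ℕ} {a : List Nd} (h : a.Pairwise (Ord cls)) : a.Nodup := by
  apply h.imp
  intro u v huv e
  exact huv ⟨by rw [e], by rw [e], by rw [e], by rw [e]⟩

/-- extension of a walk to the left by a node with label `s` -/
def extW (cls : ℕ → ℕ) (δ : ℕ → ℕ → Option (ℤ × ℤ)) (s : ℕ) (l : List Nd) : Option (List Nd) :=
  match l with
  | [] => none
  | u :: l => match δ s u.2.2 with
    | none => none
    | some d => if ∀ v ∈ (u :: l).map (tr2 d), Ord cls ((0 : ℤ), (0 : ℤ), s) v then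
        some (((0 : ℤ), (0 : ℤ), s) :: (u :: l).map (tr2 d)) else none

theorem extW_eq {cls : ℕ → ℕ} {δ : ℕ → ℕ → Option (ℤ × ℤ)} {s : ℕ} {u : Nd} {l : List Nd}
    {d : ℤ × ℤ} (h : δ s u.2.2 = some d)
    (h' : ∀ v ∈ (u :: l).map (tr2 d), Ord cls ((0 : ℤ), (0 : ℤ), s) v) :
    extW cls δ s (u :: l) = some (((0 : ℤ), (0 : ℤ), s) :: (u :: l).map (tr2 d)) := by
  simp only [extW, h]
  rw [if_pos h']

/-- all self-avoiding walks with `n` nodes starting at the origin -/
def wins (cls : ℕ → ℕ) (N : ℕ) (δ : ℕ → ℕ → Option (ℤ × ℤ)) : ℕ → List (List Nd)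
  | 0 => [[]]
  | 1 => (List.range N).map fun s => [((0 : ℤ), (0 : ℤ), s)]
  | n + 2 => (List.range N).flatMap fun s => (wins cls N δ (n + 1)).filterMap (extW cls δ s)

/-- translate the first node to the origin -/
def norm (a : List Nd) : List Nd :=
  match a with
  | [] => []
  | x :: a => (x :: a).map (tr2 (-x.1, -x.2.1))

theorem norm_cons (x : Nd) (a : List Nd) :
    norm (x :: a) = ((0 : ℤ), (0 : ℤ), x.2.2) :: a.map (tr2 (-x.1, -x.2.1)) := by
  simp [norm, tr2]

theorem mem_wins (cls : ℕ → ℕ) (N : ℕ) (δ : ℕ → ℕ → Option (ℤ × ℤ)) (a : List Nd)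
    (h1 : a.Pairwise (Ord cls))
    (h2 : a.IsChain (RelA δ)) (h3 : ∀ v ∈ a, v.2.2 < N) : norm a ∈ wins cls N δ a.length := by
  induction a with
  | nil => simp [norm, wins]
  | cons x a ih =>
    rcases a with _ | ⟨y, a⟩
    · simp only [norm, List.length_singleton, wins, List.mem_map, List.mem_range]
      exact ⟨x.2.2, h3 x (by simp), by simp [tr2]⟩
    · have h1' := List.pairwise_cons.mp h1
      have h2' := List.isChain_cons.mp h2
      have ih' := ih h1'.2 h2'.2 (fun v hv => h3 v (List.mem_cons_of_mem _ hv))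
      have hd : δ x.2.2 y.2.2 = some (y.1 - x.1, y.2.1 - x.2.1) := h2'.1 y (by simp)
      have hmap : (norm (y :: a)).map (tr2 (y.1 - x.1, y.2.1 - x.2.1)) =
          (y :: a).map (tr2 (-x.1, -x.2.1)) := by
        simp only [norm, List.map_map]
        apply List.map_congr_left
        intro v _
        simp only [Function.comp, tr2_tr2]
        congr 2 <;> ring
      simp only [List.length_cons, wins, List.mem_flatMap, List.mem_range, List.mem_filterMap]
      refine ⟨x.2.2, h3 x (by simp), norm (y :: a), by simpa using ih', ?_⟩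
      have hd' : δ x.2.2 (((0 : ℤ), (0 : ℤ), y.2.2) : Nd).2.2 =
        some (y.1 - x.1, y.2.1 - x.2.1) := hd
      rw [norm_cons y a] at hmap ⊢
      rw [extW_eq hd', hmap, norm_cons x]
      rw [hmap]
      intro v hv
      rw [List.mem_map] at hv
      obtain ⟨u, hu, rfl⟩ := hv
      have h4 : ((0 : ℤ), (0 : ℤ), x.2.2) = tr2 (-x.1, -x.2.1) x := by simp [tr2]
      rw [h4, Ord.tr2]
      exact h1'.1 u hu

/-- parts of chains are chains -/
theorem isChain_part {R : Nd → Nd → Prop} {a b : List Nd} (h : a.IsChain R) (hb : b <:+: a) :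
    b.IsChain R := by
  obtain ⟨s, t, rfl⟩ := hb
  rw [List.isChain_append, List.isChain_append] at h
  exact h.1.2.1

/-- sublists of consecutive nodes are again walks -/
theorem mem_wins_of_infix (cls : ℕ → ℕ) (N : ℕ) (δ : ℕ → ℕ → Option (ℤ × ℤ)) (a b : List Nd)
    (hb : b <:+: a) (h1 : a.Pairwise (Ord cls)) (h2 : a.IsChain (RelA δ))
    (h3 : ∀ v ∈ a, v.2.2 < N) : norm b ∈ wins cls N δ b.length :=
  mem_wins cls N δ b (h1.sublist hb.sublist) (isChain_part h2 hb) (fun v hv => h3 v (hb.subset hv))

section check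

variable {α : Type} [DecidableEq α]

/-- the letters of a walk -/
def letters (g : ℕ → α) (a : List Nd) : List α := a.map (fun v => g v.2.2)

omit [DecidableEq α] in
theorem letters_norm (g : ℕ → α) (a : List Nd) : letters g (norm a) = letters g a := by
  rcases a with _ | ⟨x, a⟩
  · rfl
  · simp [letters, norm, tr2]

/-- corrected position -/
def Phi (k : ℕ) (ψ : List ℕ → ℤ × ℤ) (a : List Nd) : ℤ × ℤ :=
  match a with
  | [] => (0, 0)
  | x :: a => (x.1, x.2.1) + ψ (((x :: a).take k).map (fun v => v.2.2))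

theorem Phi_tr2 (k : ℕ) (ψ : List ℕ → ℤ × ℤ) (d : ℤ × ℤ) (a : List Nd) (ha : a ≠ []) :
    Phi k ψ (a.map (tr2 d)) = Phi k ψ a + d := by
  rcases a with _ | ⟨x, a⟩
  · exact absurd rfl ha
  · have h : (List.map (tr2 d) (x :: a)).take k = ((x :: a).take k).map (tr2 d) := by
      rw [List.map_take]
    have h2 : (((x :: a).take k).map (tr2 d)).map (fun v : Nd => v.2.2) =
        ((x :: a).take k).map (fun v => v.2.2) := by
      rw [List.map_map]; rfl
    show ((tr2 d x).1, (tr2 d x).2.1) + ψ (((List.map (tr2 d) (x :: a)).take k).map _) =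
      (x.1, x.2.1) + ψ (((x :: a).take k).map _) + d
    rw [h, h2]
    simp only [tr2]
    ext
    · simp only [Prod.fst_add]; ring
    · simp only [Prod.snd_add]; ring

theorem Phi_congr (k : ℕ) (ψ : List ℕ → ℤ × ℤ) (a b : List Nd) (h : a.take k = b.take k)
    (hk : 1 ≤ k) : Phi k ψ a = Phi k ψ b := by
  rcases a with _ | ⟨x, a⟩ <;> rcases b with _ | ⟨y, b⟩
  · rfl
  · rw [List.take_nil] at h
    have := congrArg List.length h
    simp at this; omega
  · rw [List.take_nil] at h
    have := congrArg List.length h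
    simp at this; omega
  · have hxy : x = y := by
      obtain ⟨k', rfl⟩ : ∃ k', k = k' + 1 := ⟨k - 1, by omega⟩
      simp only [List.take_succ_cons, List.cons.injEq] at h
      exact h.1
    subst hxy
    show (x.1, x.2.1) + ψ (((x :: a).take k).map _) = (x.1, x.2.1) + ψ (((x :: b).take k).map _)
    rw [h]

/-- local contribution -/
def dl (t1 t2 v : List α) : ℤ × ℤ :=
  ((if t1 <+: v then 1 else 0) - (if t1.reverse <+: v then 1 else 0),
   (if t2 <+: v then 1 else 0) - (if t2.reverse <+: v then 1 else 0))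

/-- total displacement -/
def DD (t1 t2 v : List α) : ℤ × ℤ :=
  ((occ t1 v : ℤ) - occ t1.reverse v, (occ t2 v : ℤ) - occ t2.reverse v)

theorem DD_cons (t1 t2 v : List α) (x : α) : DD t1 t2 (x :: v) = dl t1 t2 (x :: v) + DD t1 t2 v := by
  simp only [DD, dl, occ_cons]
  ext
  · simp only [Prod.fst_add]; push_cast; ring
  · simp only [Prod.snd_add]; push_cast; ring

omit [DecidableEq α] in
theorem prefix_take_iff (t v : List α) (n : ℕ) (h : t.length ≤ n) : t <+: v.take n ↔ t <+: v := by
  constructor
  · intro h'; exact h'.trans (List.take_prefix _ _)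
  · intro h'
    rw [List.prefix_iff_eq_take] at h' ⊢
    rw [List.take_take, min_eq_left h]
    exact h'

theorem dl_take (t1 t2 v : List α) (n : ℕ) (h1 : t1.length ≤ n) (h2 : t2.length ≤ n) :
    dl t1 t2 (v.take n) = dl t1 t2 v := by
  simp only [dl, prefix_take_iff t1 v n h1, prefix_take_iff t2 v n h2,
    prefix_take_iff t1.reverse v n (by simpa using h1),
    prefix_take_iff t2.reverse v n (by simpa using h2)]

/-- The first check: the weights telescope. -/
def Check0 (cls : ℕ → ℕ) (N : ℕ) (δ : ℕ → ℕ → Option (ℤ × ℤ)) (k : ℕ) (g : ℕ → α) (t1 t2 : List α)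
    (ψ : List ℕ → ℤ × ℤ) : Prop :=
  ∀ l ∈ wins cls N δ (k + 1), dl t1 t2 (letters g l) = Phi k ψ l.tail - Phi k ψ l

/-- The second check: two windows with mirrored letters at the same corrected position meet. -/
def Check1 (cls : ℕ → ℕ) (N : ℕ) (δ : ℕ → ℕ → Option (ℤ × ℤ)) (k : ℕ) (g : ℕ → α)
    (ψ : List ℕ → ℤ × ℤ) : Prop :=
  ∀ A ∈ wins cls N δ (k + 1), ∀ B ∈ wins cls N δ (k + 1),
    letters g (A.take k) = (letters g B.tail).reverse →
    ∃ u ∈ A, ∃ v ∈ B, u.2.2 = v.2.2 ∧
      ((u.1, u.2.1) : ℤ × ℤ) - Phi k ψ A = ((v.1, v.2.1) : ℤ × ℤ) - Phi k ψ B.tail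

/-- The third check: short palindromes. -/
def Check2 (cls : ℕ → ℕ) (N : ℕ) (δ : ℕ → ℕ → Option (ℤ × ℤ)) (k : ℕ) (g : ℕ → α) (P : List (List α)) : Prop :=
  ∀ n ∈ List.range (2 * k + 2), ∀ l ∈ wins cls N δ n,
    (letters g l).reverse = letters g l → letters g l ∈ P

instance (cls : ℕ → ℕ) (N : ℕ) (δ : ℕ → ℕ → Option (ℤ × ℤ)) (k : ℕ) (g : ℕ → α) (t1 t2 : List α)
    (ψ : List ℕ → ℤ × ℤ) : Decidable (Check0 cls N δ k g t1 t2 ψ) := by
  unfold Check0; infer_instance

instance (cls : ℕ → ℕ) (N : ℕ) (δ : ℕ → ℕ → Option (ℤ × ℤ)) (k : ℕ) (g : ℕ → α)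
    (ψ : List ℕ → ℤ × ℤ) : Decidable (Check1 cls N δ k g ψ) := by
  unfold Check1; infer_instance

instance (cls : ℕ → ℕ) (N : ℕ) (δ : ℕ → ℕ → Option (ℤ × ℤ)) (k : ℕ) (g : ℕ → α) (P : List (List α)) :
    Decidable (Check2 cls N δ k g P) := by
  unfold Check2; infer_instance

variable {cls : ℕ → ℕ} {N : ℕ} {δ : ℕ → ℕ → Option (ℤ × ℤ)} {k : ℕ} {g : ℕ → α} {t1 t2 : List α}
  {ψ : List ℕ → ℤ × ℤ} {P : List (List α)}

theorem telescope (hk : 1 ≤ k) (ht1 : t1.length = k + 1) (ht2 : t2.length = k + 1)
    (hc : Check0 cls N δ k g t1 t2 ψ) (m : ℕ) :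
    ∀ a : List Nd, a.length = k + m → a.Pairwise (Ord cls) → a.IsChain (RelA δ) → (∀ v ∈ a, v.2.2 < N) →
      DD t1 t2 (letters g a) = Phi k ψ (a.drop m) - Phi k ψ a := by
  induction m with
  | zero =>
    intro a ha _ _ _
    have h0 : ∀ t : List α, t.length = k + 1 → occ t (letters g a) = 0 := by
      intro t ht
      apply occ_eq_zero_of_length_lt
      simp only [letters, List.length_map]
      omega
    simp only [DD, List.drop_zero, sub_self]
    rw [h0 t1 ht1, h0 t2 ht2, h0 t1.reverse (by simpa using ht1),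
      h0 t2.reverse (by simpa using ht2)]
    rfl
  | succ m ih =>
    intro a ha h1 h2 h3
    rcases a with _ | ⟨x, a⟩
    · simp at ha
    · have h1' := List.pairwise_cons.mp h1
      have h2' := List.isChain_cons.mp h2
      have e1 := ih a (by simpa using (show a.length = k + m by simp at ha; omega)) h1'.2 h2'.2
        (fun v hv => h3 v (List.mem_cons_of_mem _ hv))
      have e2 : DD t1 t2 (letters g (x :: a)) =
          dl t1 t2 (letters g (x :: a)) + DD t1 t2 (letters g a) := DD_cons _ _ _ _
      rw [e2, e1, List.drop_succ_cons]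
      -- the window
      set b := (x :: a).take (k + 1) with hb
      have hblen : b.length = k + 1 := by
        rw [hb, List.length_take, ha]; omega
      have hw := mem_wins_of_infix cls N δ (x :: a) b (List.take_prefix _ _).isInfix h1 h2 h3
      rw [hblen] at hw
      have hc' := hc _ hw
      have hbe : b = x :: a.take k := by rw [hb, List.take_succ_cons]
      rw [letters_norm] at hc'
      have e3 : letters g b = (letters g (x :: a)).take (k + 1) := by
        simp only [hb, letters, List.map_take]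
      rw [e3, dl_take _ _ _ _ (by omega) (by omega)] at hc'
      have hane : a.take k ≠ [] := by
        intro h
        have h5 := congrArg List.length h
        rw [List.length_take, List.length_nil] at h5
        rw [List.length_cons] at ha
        omega
      have e4 : Phi k ψ (norm b).tail = Phi k ψ a + (-x.1, -x.2.1) := by
        rw [hbe, norm_cons, List.tail_cons, Phi_tr2 _ _ _ _ hane,
          Phi_congr k ψ (a.take k) a (by simp) hk]
      have e5 : Phi k ψ (norm b) = Phi k ψ (x :: a) + (-x.1, -x.2.1) := by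
        have : norm b = b.map (tr2 (-x.1, -x.2.1)) := by rw [hbe]; rfl
        rw [this, Phi_tr2 _ _ _ _ (by rw [hbe]; simp), Phi_congr k ψ b (x :: a) (by
          rw [hb, List.take_take, min_eq_left (by omega)]) hk]
      rw [hc', e4, e5]
      abel

theorem kpal_mem [Fintype α] (hk : 1 ≤ k) (ht1 : t1.length = k + 1) (ht2 : t2.length = k + 1)
    (hc0 : Check0 cls N δ k g t1 t2 ψ) (hc1 : Check1 cls N δ k g ψ) (hc2 : Check2 cls N δ k g P)
    (a : List Nd) (h1 : a.Pairwise (Ord cls)) (h2 : a.IsChain (RelA δ))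
    (h3 : ∀ v ∈ a, v.2.2 < N) (hpal : KPal (k + 1) (letters g a)) : letters g a ∈ P := by
  by_cases hlen : a.length ≤ 2 * k + 1
  · have hw := mem_wins cls N δ a h1 h2 h3
    have := hc2 a.length (List.mem_range.mpr (by omega)) _ hw
    rw [letters_norm] at this
    apply this
    apply hpal.reverse_eq
    simpa [letters] using hlen
  · exfalso
    obtain ⟨m, hm⟩ : ∃ m, a.length = k + m := ⟨a.length - k, by omega⟩
    have htel := telescope hk ht1 ht2 hc0 m a hm h1 h2 h3
    have hD : DD t1 t2 (letters g a) = 0 := by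
      simp only [DD]
      rw [hpal.occ_eq t1 (by omega), hpal.occ_eq t2 (by omega)]
      simp
    rw [hD] at htel
    set A := a.take (k + 1) with hA
    set B := a.drop (m - 1) with hB
    have hAlen : A.length = k + 1 := by rw [hA, List.length_take]; omega
    have hBlen : B.length = k + 1 := by rw [hB, List.length_drop]; omega
    have hwA := mem_wins_of_infix cls N δ a A (List.take_prefix _ _).isInfix h1 h2 h3
    have hwB := mem_wins_of_infix cls N δ a B (List.drop_suffix _ _).isInfix h1 h2 h3
    rw [hAlen] at hwA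
    rw [hBlen] at hwB
    have hBtail : B.tail = a.drop m := by
      rw [hB, List.tail_drop]
      congr 1
      omega
    obtain ⟨x, A', hAe⟩ : ∃ x A', A = x :: A' := by
      rcases hA' : A with _ | ⟨x, A'⟩
      · rw [hA'] at hAlen; simp at hAlen
      · exact ⟨x, A', rfl⟩
    obtain ⟨y, B', hBe⟩ : ∃ y B', B = y :: B' := by
      rcases hB' : B with _ | ⟨y, B'⟩
      · rw [hB'] at hBlen; simp at hBlen
      · exact ⟨y, B', rfl⟩
    have hnA : norm A = A.map (tr2 (-x.1, -x.2.1)) := by rw [hAe]; rfl
    have hnB : norm B = B.map (tr2 (-y.1, -y.2.1)) := by rw [hBe]; rfl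
    -- mirrored letters
    have hmir : letters g ((norm A).take k) = (letters g (norm B).tail).reverse := by
      have e1 : letters g ((norm A).take k) = (letters g a).take k := by
        have : letters g ((norm A).take k) = (letters g (norm A)).take k := by
          simp only [letters, List.map_take]
        rw [this, letters_norm, hA]
        simp only [letters, List.map_take, List.take_take]
        congr 1
        omega
      have e2 : letters g (norm B).tail = (letters g a).drop m := by
        have : letters g (norm B).tail = (letters g (norm B)).tail := by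
          simp only [letters, List.map_tail]
        rw [this, letters_norm]
        have : (letters g B).tail = letters g B.tail := by simp only [letters, List.map_tail]
        rw [this, hBtail]
        simp only [letters, List.map_drop]
      rw [e1, e2, hpal.take_eq, List.take_reverse]
      congr 2
      simp only [letters, List.length_map]
      omega
    obtain ⟨u, hu, v, hv, huv, hpos⟩ := hc1 _ hwA _ hwB hmir
    rw [hnA, List.mem_map] at hu
    rw [hnB, List.mem_map] at hv
    obtain ⟨u0, hu0, rfl⟩ := hu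
    obtain ⟨v0, hv0, rfl⟩ := hv
    have hB'ne : B.tail ≠ [] := by
      intro h
      have := congrArg List.length h
      rw [List.length_tail, hBlen] at this
      simp at this
      omega
    have p1 : Phi k ψ (norm A) = Phi k ψ a + (-x.1, -x.2.1) := by
      rw [hnA, Phi_tr2 _ _ _ _ (by rw [hAe]; simp), Phi_congr k ψ A a (by
        rw [hA, List.take_take, min_eq_left (by omega)]) hk]
    have p2 : Phi k ψ (norm B).tail = Phi k ψ (a.drop m) + (-y.1, -y.2.1) := by
      rw [hnB, ← List.map_tail, Phi_tr2 _ _ _ _ hB'ne, hBtail]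
    rw [p1, p2] at hpos
    have hphi : Phi k ψ (a.drop m) = Phi k ψ a := by
      have := htel.symm
      exact sub_eq_zero.mp this
    rw [hphi] at hpos
    have hq : u0 = v0 := by
      have q1 := congrArg Prod.fst hpos
      have q2 := congrArg Prod.snd hpos
      simp only [tr2, Prod.fst_sub, Prod.snd_sub, Prod.fst_add, Prod.snd_add] at q1 q2 huv
      ext
      · omega
      · omega
      · exact huv
    have hdis := List.disjoint_take_drop (nodup_of_ord h1) (show k + 1 ≤ m - 1 by omega)
    exact hdis hu0 (hq ▸ hv0)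

end check

end Pool.Agent.H.MP_d67245_co
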